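import Pool.Agent.Helper591.Cohn.Defs

set_option autoImplicit false

open LaurentPolynomial
open scoped TensorProduct

namespace Pool.Agent.Helper591.Cohn

section filt

variable {E : Type} [Ring E]

/-- Laurent polynomials all of whose exponents are at least `m`. -/
def P (m : ℤ) : AddSubgroup (LaurentPolynomial E) where
  carrier := {p | ∃ q : Polynomial E, p = T m * Polynomial.toLaurent q}
  add_mem' := by
    rintro a b ⟨q, rfl⟩ ⟨r, rfl⟩
    exact ⟨q + r, by rw [map_add, mul_add]⟩
  zero_mem' := ⟨0, by simp⟩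
  neg_mem' := by
    rintro a ⟨q, rfl⟩
    exact ⟨-q, by simp⟩

lemma mem_P {m : ℤ} {p : LaurentPolynomial E} :
    p ∈ P m ↔ ∃ q : Polynomial E, p = T m * Polynomial.toLaurent q := Iff.rfl

lemma P_mul {m n : ℤ} {a b : LaurentPolynomial E} (ha : a ∈ P m) (hb : b ∈ P n) :
    a * b ∈ P (m + n) := by
  obtain ⟨q, rfl⟩ := mem_P.1 ha
  obtain ⟨r, rfl⟩ := mem_P.1 hb
  refine mem_P.2 ⟨q * r, ?_⟩
  rw [map_mul, T_add]
  have h := commute_T n (Polynomial.toLaurent q)
  calc T m * Polynomial.toLaurent q * (T n * Polynomial.toLaurent r)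
      = T m * (Polynomial.toLaurent q * T n) * Polynomial.toLaurent r := by simp only [mul_assoc]
    _ = T m * (T n * Polynomial.toLaurent q) * Polynomial.toLaurent r := by rw [h.eq]
    _ = _ := by simp only [mul_assoc]

lemma T_mem (m : ℤ) : (T m : LaurentPolynomial E) ∈ P m := mem_P.2 ⟨1, by simp⟩

lemma C_mem (e : E) : (C e : LaurentPolynomial E) ∈ P 0 :=
  mem_P.2 ⟨Polynomial.C e, by rw [Polynomial.toLaurent_C]; simp⟩

lemma P_mono {m n : ℤ} (h : m ≤ n) {a : LaurentPolynomial E} (ha : a ∈ P n) : a ∈ P m := by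
  obtain ⟨q, rfl⟩ := mem_P.1 ha
  refine mem_P.2 ⟨Polynomial.X ^ (n - m).toNat * q, ?_⟩
  rw [map_mul, Polynomial.toLaurent_X_pow, ← mul_assoc, ← T_add, Int.toNat_of_nonneg (by omega)]
  congr 2
  omega

lemma P_lead {m : ℤ} {a : LaurentPolynomial E} (ha : a ∈ P m) :
    ∃ r : E, a - T m * C r ∈ P (m + 1) := by
  obtain ⟨q, rfl⟩ := mem_P.1 ha
  refine ⟨q.coeff 0, mem_P.2 ⟨q.divX, ?_⟩⟩
  have h := congrArg Polynomial.toLaurent (Polynomial.divX_mul_X_add q)
  rw [map_add, map_mul, Polynomial.toLaurent_X, Polynomial.toLaurent_C] at h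
  rw [← h, mul_add, add_sub_cancel_right, T_add, mul_assoc, commute_T 1 _ |>.eq]

lemma one_notMem [Nontrivial E] : (1 : LaurentPolynomial E) ∉ P 1 := by
  intro h
  obtain ⟨q, hq⟩ := mem_P.1 h
  rw [← Polynomial.toLaurent_X, ← map_mul, ← map_one Polynomial.toLaurent] at hq
  have h2 := Polynomial.toLaurent_injective hq
  have h3 := congrArg (fun p => Polynomial.coeff p 0) h2
  simp at h3

end filt

section hensel

variable {k : Type} [Field k] {X : Type} {E : Type} [Ring E] [Algebra k E]

/-- evaluation at the point with coordinates `T ^ (- w j) * a j` -/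
noncomputable def ev (k : Type) [Field k] {X : Type} {E : Type} [Ring E] [Algebra k E]
    (w : X → ℤ) (a : X → LaurentPolynomial E) : FreeAlgebra k X →ₐ[k] LaurentPolynomial E :=
  FreeAlgebra.lift k (fun j => T (-(w j)) * a j)

lemma ev_word (w : X → ℤ) (a : X → LaurentPolynomial E) (l : List X) :
    ev k w a (word k l) = T (-((l.map w).sum)) * (l.map a).prod := by
  induction l with
  | nil => simp [word]
  | cons x l ih =>
    have h1 : word k (x :: l) = FreeAlgebra.ι k x * word k l := by simp [word]
    rw [h1, map_mul, ih]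
    have h2 : ev k w a (FreeAlgebra.ι k x) = T (-(w x)) * a x := by simp [ev]
    rw [h2, List.map_cons, List.sum_cons, List.map_cons, List.prod_cons, neg_add, T_add]
    have h := commute_T (-((l.map w).sum)) (a x)
    calc T (-(w x)) * a x * (T (-((l.map w).sum)) * (l.map a).prod)
        = T (-(w x)) * (a x * T (-((l.map w).sum))) * (l.map a).prod := by simp only [mul_assoc]
      _ = T (-(w x)) * (T (-((l.map w).sum)) * a x) * (l.map a).prod := by rw [h.eq]
      _ = _ := by simp only [mul_assoc]

/-- every element has its values in some fixed piece of the filtration -/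
lemma ev_bounded (w : X → ℤ) (v : FreeAlgebra k X) :
    ∃ c : ℤ, ∀ a : X → LaurentPolynomial E, (∀ j, a j ∈ P 0) → ev k w a v ∈ P c := by
  induction v using FreeAlgebra.induction with
  | grade0 r =>
    refine ⟨0, fun a _ => ?_⟩
    rw [AlgHom.commutes]
    have : (algebraMap k (LaurentPolynomial E)) r = C (algebraMap k E r) := rfl
    rw [this]
    exact C_mem _
  | grade1 x =>
    refine ⟨-(w x), fun a ha => ?_⟩
    have h2 : ev k w a (FreeAlgebra.ι k x) = T (-(w x)) * a x := by simp [ev]
    rw [h2]
    have := P_mul (T_mem (E := E) (-(w x))) (ha x)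
    simpa using this
  | mul u v hu hv =>
    obtain ⟨c, hc⟩ := hu
    obtain ⟨d, hd⟩ := hv
    exact ⟨c + d, fun a ha => by rw [map_mul]; exact P_mul (hc a ha) (hd a ha)⟩
  | add u v hu hv =>
    obtain ⟨c, hc⟩ := hu
    obtain ⟨d, hd⟩ := hv
    refine ⟨min c d, fun a ha => ?_⟩
    rw [map_add]
    exact add_mem (P_mono (min_le_left _ _) (hc a ha)) (P_mono (min_le_right _ _) (hd a ha))

/-- the first order term of the evaluation of an element of the free algebra at the point `α`
moved by `u` in the direction of the letter `i` -/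
noncomputable def jet (k : Type) [Field k] {X : Type} [DecidableEq X] {E : Type} [Ring E]
    [Algebra k E] (α : X → E) (i : X) (u : E) : FreeAlgebra k X →ₐ[k] Matrix (Fin 2) (Fin 2) E :=
  FreeAlgebra.lift k (fun j => !![α j, if j = i then u else 0; 0, α j])

lemma jet_word [DecidableEq X] (α : X → E) (i : X) (u : E) (x : X) (l : List X) :
    jet k α i u (word k (x :: l)) =
      !![α x, if x = i then u else 0; 0, α x] * jet k α i u (word k l) := by
  have h1 : word k (x :: l) = FreeAlgebra.ι k x * word k l := by simp [word]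
  rw [h1, map_mul]
  congr 1
  simp [jet]

lemma jet_diag [DecidableEq X] (α : X → E) (i : X) (u : E) (l : List X) :
    jet k α i u (word k l) 1 0 = 0 ∧ jet k α i u (word k l) 1 1 = (l.map α).prod ∧
    jet k α i u (word k l) 0 0 = (l.map α).prod := by
  induction l with
  | nil => simp [word]
  | cons x l ih =>
    rw [jet_word]
    obtain ⟨h1, h2, h3⟩ := ih
    simp [Matrix.mul_apply, Fin.sum_univ_two, h1, h2, h3]

lemma jet_cons [DecidableEq X] (α : X → E) (i : X) (u : E) (x : X) (l : List X) :
    jet k α i u (word k (x :: l)) 0 1 =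
      α x * jet k α i u (word k l) 0 1 + (if x = i then u else 0) * (l.map α).prod := by
  rw [jet_word]
  simp [Matrix.mul_apply, Fin.sum_univ_two, (jet_diag α i u l).2.1]

lemma prod_sub (α : X → E) (a : X → LaurentPolynomial E) (ha : ∀ j, a j - C (α j) ∈ P 1)
    (l : List X) : (l.map a).prod - C ((l.map α).prod) ∈ P 1 ∧ (l.map a).prod ∈ P 0 := by
  have ha0 : ∀ j, a j ∈ P 0 := fun j => by
    have := add_mem (P_mono (by norm_num) (ha j)) (C_mem (α j))
    simpa using this
  induction l with
  | nil =>
    refine ⟨by simp [zero_mem], ?_⟩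
    have := T_mem (E := E) 0
    simpa using this
  | cons x l ih =>
    constructor
    · have h1 : (List.map a (x :: l)).prod - C (List.map α (x :: l)).prod =
        (a x - C (α x)) * (l.map a).prod + C (α x) * ((l.map a).prod - C ((l.map α).prod)) := by
        simp only [List.map_cons, List.prod_cons, map_mul]
        noncomm_ring
      rw [h1]
      refine add_mem ?_ ?_
      · simpa using P_mul (ha x) ih.2
      · simpa using P_mul (C_mem (α x)) ih.1
    · simpa using P_mul (ha0 x) ih.2

lemma prod_move [DecidableEq X] (α : X → E) (a : X → LaurentPolynomial E)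
    (ha : ∀ j, a j - C (α j) ∈ P 1) (i : X) (u : E) (m : ℤ) (hm : 1 ≤ m)
    (a' : X → LaurentPolynomial E) (ha' : ∀ j, a' j = a j + if j = i then T m * C u else 0)
    (l : List X) :
    (l.map a').prod - (l.map a).prod - T m * C (jet k α i u (word k l) 0 1) ∈ P (m + 1) := by
  have ha1 : ∀ j, a' j - C (α j) ∈ P 1 := fun j => by
    rw [ha' j]
    have h1 : (if j = i then T m * C u else 0 : LaurentPolynomial E) ∈ P 1 := by
      split_ifs
      · have := P_mul (T_mem (E := E) m) (C_mem u)
        rw [add_zero] at this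
        exact P_mono hm this
      · exact zero_mem _
    have := add_mem (ha j) h1
    convert this using 1
    abel
  have ha0 : ∀ j, a j ∈ P 0 := fun j => by
    have := add_mem (P_mono (by norm_num) (ha j)) (C_mem (α j))
    simpa using this
  induction l with
  | nil => simp [word, zero_mem]
  | cons x l ih =>
    rw [jet_cons]
    set J := jet k α i u (word k l) 0 1
    set δ : E := if x = i then u else 0 with hδ
    have hd : (if x = i then T m * C u else 0 : LaurentPolynomial E) = T m * C δ := by
      rw [hδ]; split_ifs <;> simp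
    have e1 : (List.map a' (x :: l)).prod - (List.map a (x :: l)).prod -
        T m * C (α x * J + δ * (l.map α).prod) =
        T m * C δ * ((l.map a').prod - C ((l.map α).prod)) +
        a x * ((l.map a').prod - (l.map a).prod - T m * C J) +
        (a x * (T m * C J) - T m * (C (α x) * C J)) := by
      simp only [List.map_cons, List.prod_cons, map_mul, map_add, ha' x, hd]
      noncomm_ring
    have e2 : a x * (T m * C J) - T m * (C (α x) * C J) = T m * ((a x - C (α x)) * C J) := by
      have := (commute_T m (a x)).eq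
      calc a x * (T m * C J) - T m * (C (α x) * C J)
          = (a x * T m) * C J - T m * (C (α x) * C J) := by rw [mul_assoc]
        _ = T m * a x * C J - T m * (C (α x) * C J) := by rw [this]
        _ = _ := by noncomm_ring
    rw [e1, e2]
    refine add_mem (add_mem ?_ ?_) ?_
    · have h1 := P_mul (T_mem (E := E) m) (C_mem δ)
      rw [add_zero] at h1
      exact P_mul h1 (prod_sub α a' ha1 l).1
    · have := P_mul (ha0 x) ih
      rwa [zero_add] at this
    · have h1 := P_mul (ha x) (C_mem J)
      rw [add_zero] at h1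
      exact P_mul (T_mem m) h1

lemma ev_zero_mem (α : X → E) (a : X → LaurentPolynomial E) (ha : ∀ j, a j - C (α j) ∈ P 1)
    (j : X) : a j ∈ P 0 := by
  have := add_mem (P_mono (by norm_num) (ha j)) (C_mem (α j))
  simpa using this

lemma smul_mem_P {m : ℤ} (r : k) {p : LaurentPolynomial E} (hp : p ∈ P m) : r • p ∈ P m := by
  rw [Algebra.smul_def]
  have : (algebraMap k (LaurentPolynomial E)) r = C (algebraMap k E r) := rfl
  rw [this]
  simpa using P_mul (C_mem (algebraMap k E r)) hp

lemma C_smul (r : k) (e : E) : (C (r • e) : LaurentPolynomial E) = r • C e := by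
  rw [Algebra.smul_def, Algebra.smul_def, map_mul]
  rfl

lemma lift_word (α : X → E) (l : List X) :
    FreeAlgebra.lift k α (word k l) = (l.map α).prod := by
  induction l with
  | nil => simp [word]
  | cons x l ih =>
    have h1 : word k (x :: l) = FreeAlgebra.ι k x * word k l := by simp [word]
    rw [h1, map_mul, ih]
    simp

lemma T_ev (w : X → ℤ) (a : X → LaurentPolynomial E) (l : List X) (d : ℤ) :
    T d * ev k w a (word k l) = T (d - (l.map w).sum) * (l.map a).prod := by
  rw [ev_word, ← mul_assoc, ← T_add, ← sub_eq_add_neg]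

lemma lemA (w : X → ℤ) (d : ℤ) (α : X → E) (a : X → LaurentPolynomial E)
    (ha : ∀ j, a j - C (α j) ∈ P 1) (g : FreeAlgebra k X) (hg : g ∈ hom k w d) :
    T d * ev k w a g - C (FreeAlgebra.lift k α g) ∈ P 1 := by
  refine Submodule.span_induction (p := fun g _ =>
    T d * ev k w a g - C (FreeAlgebra.lift k α g) ∈ P 1) ?_ ?_ ?_ ?_ hg
  · rintro _ ⟨l, hl, rfl⟩
    rw [T_ev, hl, sub_self, lift_word]
    simpa using (prod_sub α a ha l).1
  · simp [zero_mem]
  · intro x y _ _ hx hy
    have := add_mem hx hy
    convert this using 1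
    simp only [map_add, mul_add]
    abel
  · intro r x _ hx
    have := smul_mem_P r hx
    convert this using 1
    rw [map_smul, map_smul, C_smul, smul_sub, mul_smul_comm]

lemma lemB [DecidableEq X] (w : X → ℤ) (d : ℤ) (α : X → E) (a : X → LaurentPolynomial E)
    (ha : ∀ j, a j - C (α j) ∈ P 1) (i : X) (u : E) (m : ℤ) (hm : 1 ≤ m)
    (a' : X → LaurentPolynomial E) (ha' : ∀ j, a' j = a j + if j = i then T m * C u else 0)
    (g : FreeAlgebra k X) (hg : g ∈ hom k w d) :
    T d * (ev k w a' g - ev k w a g) - T m * C (jet k α i u g 0 1) ∈ P (m + 1) := by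
  refine Submodule.span_induction (p := fun g _ =>
    T d * (ev k w a' g - ev k w a g) - T m * C (jet k α i u g 0 1) ∈ P (m + 1)) ?_ ?_ ?_ ?_ hg
  · rintro _ ⟨l, hl, rfl⟩
    rw [mul_sub, T_ev, T_ev, hl, sub_self]
    simpa using prod_move α a ha i u m hm a' ha' l
  · simp [zero_mem]
  · intro x y _ _ hx hy
    have := add_mem hx hy
    convert this using 1
    simp only [map_add, mul_add, Matrix.add_apply, mul_sub]
    abel
  · intro r x _ hx
    have := smul_mem_P r hx
    convert this using 1
    rw [map_smul, map_smul, map_smul, Matrix.smul_apply, C_smul, smul_sub, ← smul_sub,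
      mul_smul_comm, mul_smul_comm]


/-! ### Products of homogeneous elements of the commutator ideal -/

lemma prod_diff {m : ℤ} (hm : 0 ≤ m) (a a' : X → LaurentPolynomial E) (ha : ∀ j, a j ∈ P 0)
    (hd : ∀ j, a' j - a j ∈ P m) (l : List X) :
    (l.map a').prod - (l.map a).prod ∈ P m ∧ (l.map a).prod ∈ P 0 ∧ (l.map a').prod ∈ P 0 := by
  have ha' : ∀ j, a' j ∈ P 0 := fun j => by
    have := add_mem (P_mono hm (hd j)) (ha j)
    simpa using this
  induction l with
  | nil =>
    have := T_mem (E := E) 0
    refine ⟨by simp [zero_mem], by simpa using this, by simpa using this⟩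
  | cons x l ih =>
    obtain ⟨h1, h2, h3⟩ := ih
    refine ⟨?_, by simpa using P_mul (ha x) h2, by simpa using P_mul (ha' x) h3⟩
    have e : (List.map a' (x :: l)).prod - (List.map a (x :: l)).prod =
        (a' x - a x) * (l.map a').prod + a x * ((l.map a').prod - (l.map a).prod) := by
      simp only [List.map_cons, List.prod_cons]
      noncomm_ring
    rw [e]
    refine add_mem ?_ ?_
    · simpa using P_mul (hd x) h3
    · simpa using P_mul (ha x) h1

lemma ev_diff {m : ℤ} (hm : 0 ≤ m) (w : X → ℤ) (d : ℤ) (a a' : X → LaurentPolynomial E)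
    (ha : ∀ j, a j ∈ P 0) (hd : ∀ j, a' j - a j ∈ P m) (g : FreeAlgebra k X)
    (hg : g ∈ hom k w d) : T d * (ev k w a' g - ev k w a g) ∈ P m := by
  refine Submodule.span_induction (p := fun g _ =>
    T d * (ev k w a' g - ev k w a g) ∈ P m) ?_ ?_ ?_ ?_ hg
  · rintro _ ⟨l, hl, rfl⟩
    rw [mul_sub, T_ev, T_ev, hl, sub_self]
    simpa using (prod_diff hm a a' ha hd l).1
  · simp [zero_mem]
  · intro x y _ _ hx hy
    have := add_mem hx hy
    convert this using 1
    simp only [map_add, mul_add, mul_sub]
    abel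
  · intro r x _ hx
    have := smul_mem_P r hx
    convert this using 1
    rw [map_smul, map_smul, ← smul_sub, mul_smul_comm]

/-- the commutator ideal is killed by commuting points -/
lemma ev_comm (w : X → ℤ) (α : X → E) (hα : ∀ i j, α i * α j = α j * α i)
    (g : FreeAlgebra k X) (hg : ab k X g = 0) :
    ev k w (fun j => (C (α j) : LaurentPolynomial E)) g = 0 := by
  let A := LaurentPolynomial E
  let x : X → A := fun j => T (-(w j)) * C (α j)
  have hx : ∀ i j, x i * x j = x j * x i := by
    intro i j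
    have h1 := (commute_T (-(w j)) (C (α i) : LaurentPolynomial E)).eq
    have h2 := (commute_T (-(w i)) (C (α j) : LaurentPolynomial E)).eq
    calc x i * x j = T (-(w i)) * (C (α i) * T (-(w j))) * C (α j) := by
          simp only [x, mul_assoc]
      _ = T (-(w i)) * T (-(w j)) * (C (α i) * C (α j)) := by
          rw [← h1]; simp only [mul_assoc]
      _ = T (-(w j)) * T (-(w i)) * (C (α j) * C (α i)) := by
          rw [← T_add, ← T_add, add_comm, ← map_mul, ← map_mul, hα i j]
      _ = T (-(w j)) * (T (-(w i)) * C (α j)) * C (α i) := by simp only [mul_assoc]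
      _ = T (-(w j)) * (C (α j) * T (-(w i))) * C (α i) := by rw [h2]
      _ = x j * x i := by simp only [x, mul_assoc]
  let B : Subalgebra k A := Algebra.adjoin k (Set.range x)
  letI : CommRing B := Algebra.adjoinCommRingOfComm k (by
    rintro _ ⟨i, rfl⟩ _ ⟨j, rfl⟩
    exact hx i j)
  let xB : X → B := fun j => ⟨x j, Algebra.subset_adjoin ⟨j, rfl⟩⟩
  let e : MvPolynomial X k →ₐ[k] B := MvPolynomial.aeval xB
  have h : ev k w (fun j => (C (α j) : LaurentPolynomial E)) = (B.val.comp e).comp (ab k X) := by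
    apply FreeAlgebra.hom_ext
    funext j
    simp [ev, ab, e, xB, x]
    exact (commute_T (-w j) (C (α j))).eq.symm
  rw [h, AlgHom.comp_apply, hg, map_zero]

lemma valid_zero {d : ℤ} (hd : 0 ≤ d) (α : X → E) (a : X → LaurentPolynomial E)
    (ha : ∀ j, a j - C (α j) ∈ P d) (j : X) : a j ∈ P 0 := by
  have := add_mem (P_mono hd (ha j)) (C_mem (α j))
  simpa using this

/-- values of homogeneous elements of the commutator ideal -/
lemma ev_I {d : ℤ} (hd : 0 ≤ d) (w : X → ℤ) (m : ℤ) (α : X → E)
    (hα : ∀ i j, α i * α j = α j * α i) (a : X → LaurentPolynomial E)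
    (ha : ∀ j, a j - C (α j) ∈ P d) (u : FreeAlgebra k X) (hu : u ∈ hom k w m)
    (hu0 : ab k X u = 0) : T m * ev k w a u ∈ P d := by
  have h1 := ev_diff hd w m (fun j => C (α j)) a (fun j => C_mem (α j)) ha u hu
  rwa [ev_comm w α hα u hu0, sub_zero] at h1

lemma mul_T_comm (m n : ℤ) (a b : LaurentPolynomial E) :
    T (m + n) * (a * b) = (T m * a) * (T n * b) := by
  rw [T_add]
  have h := (commute_T n a).eq
  calc T m * T n * (a * b) = T m * (T n * a) * b := by simp only [mul_assoc]
    _ = T m * (a * T n) * b := by rw [h]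
    _ = _ := by simp only [mul_assoc]

lemma ev_list {d : ℤ} (hd : 0 ≤ d) (w : X → ℤ) (α : X → E)
    (hα : ∀ i j, α i * α j = α j * α i) (a a' : X → LaurentPolynomial E)
    (ha : ∀ j, a j - C (α j) ∈ P d) (ha' : ∀ j, a' j - C (α j) ∈ P d) (m : ℤ) (hm : 0 ≤ m)
    (haa : ∀ j, a' j - a j ∈ P m) (l : List (ℤ × FreeAlgebra k X))
    (hl : ∀ p ∈ l, p.2 ∈ hom k w p.1 ∧ ab k X p.2 = 0) :
    T ((l.map Prod.fst).sum) * ev k w a ((l.map Prod.snd).prod) ∈ P (l.length * d) ∧
    T ((l.map Prod.fst).sum) * ev k w a' ((l.map Prod.snd).prod) ∈ P (l.length * d) ∧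
    T ((l.map Prod.fst).sum) * (ev k w a' ((l.map Prod.snd).prod) -
      ev k w a ((l.map Prod.snd).prod)) ∈ P (l.length * d + (m - d)) := by
  induction l with
  | nil =>
    have := T_mem (E := E) 0
    refine ⟨by simpa using this, by simpa using this, by simp [zero_mem]⟩
  | cons p l ih =>
    obtain ⟨h1, h2, h3⟩ := ih (fun q hq => hl q (List.mem_cons_of_mem _ hq))
    obtain ⟨hp1, hp2⟩ := hl p (by simp)
    have e1 := ev_I hd w p.1 α hα a ha p.2 hp1 hp2
    have e2 := ev_I hd w p.1 α hα a' ha' p.2 hp1 hp2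
    have e3 := ev_diff hm w p.1 a a' (valid_zero hd α a ha) haa p.2 hp1
    simp only [List.map_cons, List.sum_cons, List.prod_cons, List.length_cons, map_mul]
    push_cast
    refine ⟨?_, ?_, ?_⟩
    · rw [mul_T_comm]
      have := P_mul e1 h1
      convert this using 1
      ring_nf
    · rw [mul_T_comm]
      have := P_mul e2 h2
      convert this using 1
      ring_nf
    · have e4 : ev k w a' p.2 * ev k w a' (List.map Prod.snd l).prod -
          ev k w a p.2 * ev k w a (List.map Prod.snd l).prod =
          (ev k w a' p.2 - ev k w a p.2) * ev k w a' (List.map Prod.snd l).prod +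
          ev k w a p.2 * (ev k w a' (List.map Prod.snd l).prod -
            ev k w a (List.map Prod.snd l).prod) := by noncomm_ring
      rw [e4, mul_add, mul_T_comm, mul_T_comm]
      refine add_mem ?_ ?_
      · have := P_mul e3 h2
        convert this using 1
        ring_nf
      · have := P_mul e1 h3
        convert this using 1
        ring_nf

lemma small_diff {d : ℤ} (hd : 0 ≤ d) (w : X → ℤ) (α : X → E)
    (hα : ∀ i j, α i * α j = α j * α i) (a a' : X → LaurentPolynomial E)
    (ha : ∀ j, a j - C (α j) ∈ P d) (ha' : ∀ j, a' j - C (α j) ∈ P d) (m : ℤ) (hm : 0 ≤ m)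
    (haa : ∀ j, a' j - a j ∈ P m) (n : FreeAlgebra k X) (hn : n ∈ small k w d) :
    T d * (ev k w a' n - ev k w a n) ∈ P (m + 1) := by
  refine Submodule.span_induction (p := fun g _ =>
    T d * (ev k w a' g - ev k w a g) ∈ P (m + 1)) ?_ ?_ ?_ ?_ hn
  · rintro _ ⟨l, hl0, hl, hlt, rfl⟩
    have h1 := (ev_list hd w α hα a a' ha ha' m hm haa l hl).2.2
    have h2 := P_mul (T_mem (E := E) (d - (l.map Prod.fst).sum)) h1
    rw [← mul_assoc, ← T_add, sub_add_cancel] at h2
    exact P_mono (by omega) h2
  · simp [zero_mem]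
  · intro x y _ _ hx hy
    have := add_mem hx hy
    convert this using 1
    simp only [map_add, mul_add, mul_sub]
    abel
  · intro r x _ hx
    have := smul_mem_P r hx
    convert this using 1
    rw [map_smul, map_smul, ← smul_sub, mul_smul_comm]

lemma small_ab (w : X → ℤ) (d : ℤ) (n : FreeAlgebra k X) (hn : n ∈ small k w d) :
    ab k X n = 0 := by
  refine Submodule.span_induction (p := fun g _ => ab k X g = 0) ?_ ?_ ?_ ?_ hn
  · rintro _ ⟨l, hl0, hl, hlt, rfl⟩
    cases l with
    | nil => exact absurd rfl hl0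
    | cons p l => simp [(hl p (by simp)).2]
  · simp
  · intro x y _ _ hx hy
    rw [map_add, hx, hy, add_zero]
  · intro r x _ hx
    rw [map_smul, hx, smul_zero]

lemma approx [DecidableEq X] (w : X → ℤ) (d : ℤ) (hd : 1 ≤ d) (α : X → E)
    (hα : ∀ i j, α i * α j = α j * α i) (i : X) (c : k) (g n : FreeAlgebra k X)
    (hg : g ∈ hom k w d) (hg0 : ab k X g = 0) (hn : n ∈ small k w d)
    (hs : ∀ e : E, ∃ u : E, jet k α i u g 0 1 = e) (M : ℕ) :
    ∃ a : X → LaurentPolynomial E, (∀ j, a j - C (α j) ∈ P d) ∧
      T d * ev k w a (algebraMap k _ c + g + n) ∈ P ((M : ℤ) + d) := by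
  induction M with
  | zero =>
    refine ⟨fun j => C (α j), fun j => by simp [zero_mem], ?_⟩
    rw [map_add, map_add, ev_comm w α hα g hg0, ev_comm w α hα n (small_ab w d n hn),
      AlgHom.commutes]
    have h1 : (algebraMap k (LaurentPolynomial E)) c = C (algebraMap k E c) := rfl
    rw [h1]
    simpa using P_mul (T_mem (E := E) d) (C_mem (algebraMap k E c))
  | succ M ih =>
    obtain ⟨a, ha, haM⟩ := ih
    obtain ⟨r, hr⟩ := P_lead haM
    obtain ⟨u, hu⟩ := hs (-r)
    let m : ℤ := (M : ℤ) + d
    have hm : 1 ≤ m := by simp only [m]; omega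
    let a' : X → LaurentPolynomial E := fun j => a j + if j = i then T m * C u else 0
    have hmem : ∀ j, (if j = i then T m * C u else 0 : LaurentPolynomial E) ∈ P m := by
      intro j
      split_ifs
      · have := P_mul (T_mem (E := E) m) (C_mem u)
        rwa [add_zero] at this
      · exact zero_mem _
    have haa : ∀ j, a' j - a j ∈ P m := fun j => by
      have := hmem j
      simpa [a'] using this
    have ha' : ∀ j, a' j - C (α j) ∈ P d := fun j => by
      have := add_mem (ha j) (P_mono (by simp only [m]; omega) (hmem j))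
      convert this using 1
      simp only [a']
      abel
    have hB := lemB w d α a (fun j => P_mono hd (ha j)) i u m hm a' (fun j => rfl) g hg
    have hD := small_diff (by omega) w α hα a a' ha ha' m (by omega) haa n hn
    refine ⟨a', ha', ?_⟩
    have h3 := add_mem (add_mem hr hB) hD
    push_cast
    have e : (M : ℤ) + 1 + d = m + 1 := by simp only [m]; ring
    rw [e]
    convert h3 using 1
    rw [hu]
    simp only [map_add, mul_add, mul_sub, map_neg, mul_neg, AlgHom.commutes]
    abel

theorem main_hensel [Nontrivial E] [DecidableEq X] (w : X → ℤ) (d : ℤ) (hd : 1 ≤ d)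
    (α : X → E) (hα : ∀ i j, α i * α j = α j * α i) (i : X) (c : k) (g n : FreeAlgebra k X)
    (hg : g ∈ hom k w d) (hg0 : ab k X g = 0) (hn : n ∈ small k w d)
    (hs : ∀ e : E, ∃ u : E, jet k α i u g 0 1 = e) :
    TwoSidedIdeal.span ({algebraMap k _ c + g + n} : Set (FreeAlgebra k X)) ≠ ⊤ := by
  intro htop
  set f : FreeAlgebra k X := algebraMap k _ c + g + n with hf
  let J : TwoSidedIdeal (FreeAlgebra k X) := TwoSidedIdeal.mk'
    {u | ∃ c : ℤ, ∀ M : ℕ, ∀ a : X → LaurentPolynomial E, (∀ j, a j - C (α j) ∈ P d) →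
      T d * ev k w a f ∈ P (M : ℤ) → ev k w a u ∈ P ((M : ℤ) + c)}
    ⟨0, fun M a _ _ => by rw [map_zero]; exact zero_mem _⟩
    (by
      rintro u v ⟨c, hc⟩ ⟨c', hc'⟩
      refine ⟨min c c', fun M a ha hM => ?_⟩
      rw [map_add]
      exact add_mem (P_mono (by omega) (hc M a ha hM)) (P_mono (by omega) (hc' M a ha hM)))
    (by
      rintro u ⟨c, hc⟩
      refine ⟨c, fun M a ha hM => ?_⟩
      rw [map_neg]
      exact neg_mem (hc M a ha hM))
    (by
      rintro v u ⟨c, hc⟩
      obtain ⟨b, hb⟩ := ev_bounded (E := E) w v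
      refine ⟨b + c, fun M a ha hM => ?_⟩
      rw [map_mul]
      have := P_mul (hb a (valid_zero (by omega) α a ha)) (hc M a ha hM)
      convert this using 1
      ring_nf)
    (by
      rintro u v ⟨c, hc⟩
      obtain ⟨b, hb⟩ := ev_bounded (E := E) w v
      refine ⟨c + b, fun M a ha hM => ?_⟩
      rw [map_mul]
      have := P_mul (hc M a ha hM) (hb a (valid_zero (by omega) α a ha))
      convert this using 1
      ring_nf)
  have hJ : ∀ u, u ∈ J ↔ ∃ c : ℤ, ∀ M : ℕ, ∀ a : X → LaurentPolynomial E,
      (∀ j, a j - C (α j) ∈ P d) →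
      T d * ev k w a f ∈ P (M : ℤ) → ev k w a u ∈ P ((M : ℤ) + c) := by
    intro u
    exact TwoSidedIdeal.mem_mk' _ _ _ _ _ _ _
  have hfJ : f ∈ J := by
    rw [hJ]
    refine ⟨-d, fun M a ha hM => ?_⟩
    have := P_mul (T_mem (E := E) (-d)) hM
    rw [← mul_assoc, ← T_add] at this
    simpa [add_comm] using this
  have hle : TwoSidedIdeal.span ({f} : Set (FreeAlgebra k X)) ≤ J := by
    rw [TwoSidedIdeal.span_le]
    simpa using hfJ
  have h1 : (1 : FreeAlgebra k X) ∈ J := by
    apply hle
    rw [htop]
    trivial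
  rw [hJ] at h1
  obtain ⟨c', hc⟩ := h1
  obtain ⟨a, ha, haM⟩ := approx w d hd α hα i c g n hg hg0 hn hs (1 - c').toNat
  have h2 := hc (1 - c').toNat a ha (P_mono (by omega) haM)
  rw [map_one] at h2
  exact one_notMem (P_mono (by omega) h2)

end hensel

section fox

variable (k : Type) [Field k] {X : Type}

/-- the matrix homomorphism whose corner entry is the abelianised partial derivative -/
noncomputable def fox [DecidableEq X] (i : X) : FreeAlgebra k X →ₐ[k]
    Matrix (Fin 2) (Fin 2) (MvPolynomial X k ⊗[k] MvPolynomial X k) :=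
  FreeAlgebra.lift k (fun j => !![MvPolynomial.X j ⊗ₜ 1, if j = i then 1 else 0;
    0, 1 ⊗ₜ MvPolynomial.X j])

lemma mul_mem_I2 {u v : FreeAlgebra k X} (hu : ab k X u = 0) (hv : ab k X v = 0) :
    u * v ∈ I2 k X :=
  Submodule.mul_mem_mul (by simpa using hu) (by simpa using hv)

lemma fox_diag [DecidableEq X] (i : X) (g : FreeAlgebra k X) :
    fox k i g 1 0 = 0 ∧ fox k i g 1 1 = 1 ⊗ₜ ab k X g ∧ fox k i g 0 0 = ab k X g ⊗ₜ 1 := by
  induction g using FreeAlgebra.induction with
  | grade0 r =>
    simp only [AlgHom.commutes, Matrix.algebraMap_matrix_apply]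
    refine ⟨by simp, ?_, ?_⟩
    · simp [Algebra.TensorProduct.algebraMap_apply]
      have h1 : (MvPolynomial.C r : MvPolynomial X k) = r • 1 := by
        rw [MvPolynomial.smul_eq_C_mul, mul_one]
      rw [h1, TensorProduct.smul_tmul]
    · simp [Algebra.TensorProduct.algebraMap_apply]
  | grade1 x => simp [fox, ab]
  | mul u v hu hv =>
    obtain ⟨h1, h2, h3⟩ := hu
    obtain ⟨h4, h5, h6⟩ := hv
    simp [Matrix.mul_apply, Fin.sum_univ_two, h1, h2, h3, h4, h5, h6]
  | add u v hu hv =>
    obtain ⟨h1, h2, h3⟩ := hu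
    obtain ⟨h4, h5, h6⟩ := hv
    simp [h1, h2, h3, h4, h5, h6, TensorProduct.add_tmul, TensorProduct.tmul_add]

/-- if all abelianised partial derivatives of an element of the commutator ideal vanish,
it is in the square of the commutator ideal -/
theorem mem_I2 [DecidableEq X] (g : FreeAlgebra k X) (h0 : ab k X g = 0)
    (h : ∀ i, fox k i g 0 1 = 0) : g ∈ I2 k X := by
  classical
  have hsurj : LinearMap.range (ab k X).toLinearMap = ⊤ := by
    rw [LinearMap.range_eq_top]
    intro p
    have : (ab k X).range = ⊤ := by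
      rw [eq_top_iff, ← MvPolynomial.adjoin_range_X, Algebra.adjoin_le_iff]
      rintro _ ⟨x, rfl⟩
      exact ⟨FreeAlgebra.ι k x, by simp [ab]⟩
    have h2 : p ∈ (ab k X).range := by rw [this]; trivial
    exact h2
  obtain ⟨σ, hσ⟩ := LinearMap.exists_rightInverse_of_surjective _ hsurj
  have hσ' : ∀ s, ab k X (σ s) = s := fun s => LinearMap.congr_fun hσ s
  let S := MvPolynomial X k
  -- the two linear maps
  let m0 : S ⊗[k] S →ₗ[k] FreeAlgebra k X :=
    TensorProduct.lift ((LinearMap.mul k (FreeAlgebra k X)).compl₁₂ σ σ)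
  let mx : X → S ⊗[k] S →ₗ[k] FreeAlgebra k X := fun x =>
    TensorProduct.lift ((LinearMap.mul k (FreeAlgebra k X)).compl₁₂
      ((LinearMap.mulRight k (FreeAlgebra.ι k x)) ∘ₗ σ) σ)
  have hm0 : ∀ s s', m0 (s ⊗ₜ s') = σ s * σ s' := fun s s' => by simp [m0]
  have hmx : ∀ x s s', mx x (s ⊗ₜ s') = σ s * FreeAlgebra.ι k x * σ s' := fun x s s' => by
    simp [mx]
  have key : ∀ (s : S) (x : X) (v : FreeAlgebra k X),
      σ (s * MvPolynomial.X x) * v - σ s * FreeAlgebra.ι k x * v
        + mx x (s ⊗ₜ ab k X v) - m0 ((s * MvPolynomial.X x) ⊗ₜ ab k X v) ∈ I2 k X := by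
    intro s x v
    rw [hm0, hmx]
    have h1 : σ (s * MvPolynomial.X x) * v - σ s * FreeAlgebra.ι k x * v
        + σ s * FreeAlgebra.ι k x * σ (ab k X v) - σ (s * MvPolynomial.X x) * σ (ab k X v) =
        (σ (s * MvPolynomial.X x) - σ s * FreeAlgebra.ι k x) * (v - σ (ab k X v)) := by
      noncomm_ring
    rw [h1]
    apply mul_mem_I2
    · rw [map_sub, hσ', map_mul (ab k X), hσ']
      simp [ab]
    · rw [map_sub, hσ', sub_self]
  -- the formula for words
  have hword : ∀ (Y : Finset X) (l : List X), (∀ x ∈ l, x ∈ Y) → ∀ s : S,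
      σ s * word k l - σ (s * ab k X (word k l)) -
        ∑ x ∈ Y, (mx x ((s ⊗ₜ 1) * fox k x (word k l) 0 1) -
          m0 (((s * MvPolynomial.X x) ⊗ₜ 1) * fox k x (word k l) 0 1)) ∈ I2 k X := by
    intro Y l
    induction l with
    | nil =>
      intro _ s
      simp [word, zero_mem]
    | cons y l ih =>
      intro hl s
      have h1 : word k (y :: l) = FreeAlgebra.ι k y * word k l := by simp [word]
      have hfox : ∀ x, fox k x (word k (y :: l)) 0 1 =
          (MvPolynomial.X y ⊗ₜ 1) * fox k x (word k l) 0 1 +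
          (if x = y then 1 ⊗ₜ ab k X (word k l) else 0) := by
        intro x
        rw [h1, map_mul, Matrix.mul_apply, Fin.sum_univ_two, (fox_diag k x (word k l)).2.1]
        have h2 : fox k x (FreeAlgebra.ι k y) = !![MvPolynomial.X y ⊗ₜ 1,
          if y = x then 1 else 0; 0, 1 ⊗ₜ MvPolynomial.X y] := by simp [fox]
        rw [h2]
        by_cases hxy : x = y
        · subst hxy; simp
        · have : ¬ y = x := fun h => hxy h.symm
          simp [hxy, this]
      have hih := ih (fun x hx => hl x (List.mem_cons_of_mem _ hx)) (s * MvPolynomial.X y)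
      have hk := key s y (word k l)
      have hsum : ∑ x ∈ Y, (mx x ((s ⊗ₜ 1) * fox k x (word k (y :: l)) 0 1) -
          m0 (((s * MvPolynomial.X x) ⊗ₜ 1) * fox k x (word k (y :: l)) 0 1)) =
          ∑ x ∈ Y, (mx x (((s * MvPolynomial.X y) ⊗ₜ 1) * fox k x (word k l) 0 1) -
            m0 ((((s * MvPolynomial.X y) * MvPolynomial.X x) ⊗ₜ 1) * fox k x (word k l) 0 1)) +
          (mx y (s ⊗ₜ ab k X (word k l)) - m0 ((s * MvPolynomial.X y) ⊗ₜ ab k X (word k l))) := by
        have h3 : (mx y (s ⊗ₜ ab k X (word k l)) -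
            m0 ((s * MvPolynomial.X y) ⊗ₜ ab k X (word k l))) =
            ∑ x ∈ Y, (if x = y then (mx x (s ⊗ₜ ab k X (word k l)) -
              m0 ((s * MvPolynomial.X x) ⊗ₜ ab k X (word k l))) else 0) := by
          rw [Finset.sum_ite_eq' Y y]
          rw [if_pos (hl y (by simp))]
        rw [h3, ← Finset.sum_add_distrib]
        apply Finset.sum_congr rfl
        intro x _
        rw [hfox x]
        have e1 : (s ⊗ₜ[k] (1 : S)) * (MvPolynomial.X y ⊗ₜ 1) = (s * MvPolynomial.X y) ⊗ₜ 1 := by
          simp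
        have e2 : ((s * MvPolynomial.X x) ⊗ₜ[k] (1 : S)) * (MvPolynomial.X y ⊗ₜ 1) =
            ((s * MvPolynomial.X y) * MvPolynomial.X x) ⊗ₜ 1 := by
          rw [Algebra.TensorProduct.tmul_mul_tmul, mul_one, mul_right_comm]
        rw [mul_add, mul_add, ← mul_assoc, ← mul_assoc, e1, e2, map_add, map_add]
        by_cases hxy : x = y
        · subst hxy
          simp only [if_true, Algebra.TensorProduct.tmul_mul_tmul, mul_one, one_mul]
          abel
        · simp only [hxy, if_false, mul_zero, map_zero]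
          abel
      rw [hsum]
      have h4 : ab k X (word k (y :: l)) = MvPolynomial.X y * ab k X (word k l) := by
        rw [h1, map_mul]
        simp [ab]
      rw [h4, h1, ← mul_assoc, ← mul_assoc]
      have h5 := sub_mem hih hk
      convert h5 using 1
      abel
  -- extend by linearity
  have hQ : ∀ v : FreeAlgebra k X, ∃ Y : Finset X, ∀ Y' : Finset X, Y ⊆ Y' →
      σ 1 * v - σ (ab k X v) - ∑ x ∈ Y', (mx x (fox k x v 0 1) -
          m0 (((MvPolynomial.X x) ⊗ₜ 1) * fox k x v 0 1)) ∈ I2 k X := by
    intro v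
    have hv : v ∈ Submodule.span k (Set.range (word k (X := X))) := by
      induction v using FreeAlgebra.induction with
      | grade0 r =>
        rw [Algebra.algebraMap_eq_smul_one]
        exact Submodule.smul_mem _ _ (Submodule.subset_span ⟨[], by simp [word]⟩)
      | grade1 x => exact Submodule.subset_span ⟨[x], by simp [word]⟩
      | mul a b ha hb =>
        have := Submodule.mul_mem_mul ha hb
        rw [Submodule.span_mul_span] at this
        refine Submodule.span_mono ?_ this
        rintro _ ⟨_, ⟨l, rfl⟩, _, ⟨l', rfl⟩, rfl⟩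
        exact ⟨l ++ l', by simp [word]⟩
      | add a b ha hb => exact add_mem ha hb
    refine Submodule.span_induction (p := fun v _ => ∃ Y : Finset X, ∀ Y' : Finset X, Y ⊆ Y' →
      σ 1 * v - σ (ab k X v) - ∑ x ∈ Y', (mx x (fox k x v 0 1) -
          m0 (((MvPolynomial.X x) ⊗ₜ 1) * fox k x v 0 1)) ∈ I2 k X) ?_ ?_ ?_ ?_ hv
    · rintro _ ⟨l, rfl⟩
      refine ⟨l.toFinset, fun Y' hY => ?_⟩
      have := hword Y' l (fun x hx => hY (by simpa using hx)) 1
      have h1 : ((1 : S) ⊗ₜ[k] (1 : S)) = 1 := rfl
      simpa only [one_mul, h1] using this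
    · exact ⟨∅, fun Y' _ => by simp [zero_mem]⟩
    · rintro x y _ _ ⟨Y1, h1⟩ ⟨Y2, h2⟩
      refine ⟨Y1 ∪ Y2, fun Y' hY => ?_⟩
      have := add_mem (h1 Y' (Finset.union_subset_left hY)) (h2 Y' (Finset.union_subset_right hY))
      convert this using 1
      simp only [map_add, Matrix.add_apply, mul_add, Finset.sum_add_distrib, Finset.sum_sub_distrib]
      abel
    · rintro r x _ ⟨Y1, h1⟩
      refine ⟨Y1, fun Y' hY => ?_⟩
      have := Submodule.smul_mem _ r (h1 Y' hY)
      convert this using 1
      simp only [map_smul, Matrix.smul_apply, mul_smul_comm, smul_sub, Finset.smul_sum]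
  obtain ⟨Y, hY⟩ := hQ g
  have h1 := hY Y (le_refl _)
  simp only [h0, h, mul_zero, map_zero, sub_zero, Finset.sum_const_zero] at h1
  have h2 : (σ 1 - 1) * g ∈ I2 k X := by
    apply mul_mem_I2
    · rw [map_sub, hσ', map_one, sub_self]
    · exact h0
  have h3 := sub_mem h1 h2
  convert h3 using 1
  noncomm_ring

end fox

section surj

variable (k : Type) [Field k] (L : Type) [Field L] [Algebra k L]

/-- left and right multiplication operators -/
noncomputable def act : L ⊗[k] L →ₗ[k] Module.End k L →ₗ[k] Module.End k L :=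
  TensorProduct.lift (LinearMap.mk₂ k
    (fun p q => (LinearMap.mulLeft k (Algebra.lmul k L p)) ∘ₗ
      (LinearMap.mulRight k (Algebra.lmul k L q)))
    (fun p p' q => by ext; simp [add_mul])
    (fun r p q => by ext; simp)
    (fun p q q' => by ext; simp [mul_add, add_mul])
    (fun r p q => by ext; simp))

lemma act_tmul (p q : L) (u : Module.End k L) :
    act k L (p ⊗ₜ q) u = Algebra.lmul k L p * (u * Algebra.lmul k L q) := by
  simp [act]

lemma act_left (p : L) (H : L ⊗[k] L) (u : Module.End k L) :
    act k L ((p ⊗ₜ 1) * H) u = Algebra.lmul k L p * act k L H u := by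
  induction H using TensorProduct.induction_on with
  | zero => simp
  | tmul a b =>
    rw [Algebra.TensorProduct.tmul_mul_tmul, act_tmul, act_tmul, map_mul, one_mul, mul_assoc]
  | add a b ha hb => rw [mul_add, map_add, map_add, LinearMap.add_apply, LinearMap.add_apply, ha, hb, mul_add]

lemma act_right (q : L) (H : L ⊗[k] L) (u : Module.End k L) :
    act k L (H * (1 ⊗ₜ q)) u = act k L H u * Algebra.lmul k L q := by
  induction H using TensorProduct.induction_on with
  | zero => simp
  | tmul a b =>
    rw [Algebra.TensorProduct.tmul_mul_tmul, mul_one, act_tmul, act_tmul, map_mul]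
    simp only [mul_assoc]
  | add a b ha hb => rw [add_mul, map_add, map_add, LinearMap.add_apply, LinearMap.add_apply, ha, hb, add_mul]

/-- a non-zero-divisor of `L ⊗ L` acts surjectively on `End L` -/
lemma act_surj (H : L ⊗[k] L) (hH : ∀ θ, H * θ = 0 → θ = 0) (e : Module.End k L) :
    ∃ u, act k L H u = e := by
  let μ : L ⊗[k] L →ₗ[L] L ⊗[k] L := LinearMap.mulLeft L H
  have hμ : LinearMap.ker μ = ⊥ := by
    rw [LinearMap.ker_eq_bot']
    intro θ hθ
    exact hH θ hθ
  obtain ⟨ρ, hρ⟩ := LinearMap.exists_leftInverse_of_injective μ hμ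
  let ψ : L ⊗[k] L →ₗ[L] L := (LinearMap.liftBaseChange L (e : L →ₗ[k] L)) ∘ₗ ρ
  let u : Module.End k L :=
    { toFun := fun v => ψ (1 ⊗ₜ v)
      map_add' := fun a b => by rw [TensorProduct.tmul_add, map_add]
      map_smul' := fun r a => by
        rw [TensorProduct.tmul_smul]
        have : (r • ((1 : L) ⊗ₜ[k] a)) = (algebraMap k L r) • ((1 : L) ⊗ₜ[k] a) := by
          rw [algebraMap_smul]
        rw [this, map_smul]
        simp [Algebra.smul_def] }
  have hu : ∀ G : L ⊗[k] L, ∀ v, act k L G u v = ψ (G * (1 ⊗ₜ v)) := by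
    intro G v
    induction G using TensorProduct.induction_on with
    | zero => simp
    | tmul a b =>
      rw [act_tmul, Algebra.TensorProduct.tmul_mul_tmul, mul_one]
      have h1 : (Algebra.lmul k L a * (u * Algebra.lmul k L b)) v = a * ψ (1 ⊗ₜ (b * v)) := rfl
      have h2 : (a ⊗ₜ[k] (b * v)) = a • ((1 : L) ⊗ₜ[k] (b * v)) := by
        rw [TensorProduct.smul_tmul', smul_eq_mul, mul_one]
      rw [h1, h2, map_smul, smul_eq_mul]
    | add a b ha hb => rw [map_add, LinearMap.add_apply, LinearMap.add_apply, ha, hb, add_mul, map_add]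
  refine ⟨u, ?_⟩
  ext v
  rw [hu]
  have h3 : ρ (H * (1 ⊗ₜ v)) = 1 ⊗ₜ v := LinearMap.congr_fun hρ (1 ⊗ₜ v)
  show LinearMap.liftBaseChange L (e : L →ₗ[k] L) (ρ (H * (1 ⊗ₜ v))) = e v
  rw [h3, LinearMap.liftBaseChange_one_tmul]

end surj

section dom

variable (k : Type) [Field k] (X : Type)

/-- the field of rational functions -/
abbrev FR : Type := FractionRing (MvPolynomial X k)

/-- the inclusion of the tensor squares -/
noncomputable def inc : MvPolynomial X k ⊗[k] MvPolynomial X k →ₐ[k] FR k X ⊗[k] FR k X :=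
  Algebra.TensorProduct.map (IsScalarTower.toAlgHom k (MvPolynomial X k) (FR k X))
    (IsScalarTower.toAlgHom k (MvPolynomial X k) (FR k X))

lemma inc_inj : Function.Injective (inc k X) := by
  have h : Function.Injective (IsScalarTower.toAlgHom k (MvPolynomial X k) (FR k X)).toLinearMap :=
    IsFractionRing.injective (MvPolynomial X k) (FR k X)
  exact TensorProduct.map_injective_of_flat_flat _ _ h h

lemma dom0 (a b : MvPolynomial X k ⊗[k] MvPolynomial X k) (h : a * b = 0) : a = 0 ∨ b = 0 := by
  let e := MvPolynomial.algebraTensorAlgEquiv (σ := X) k (MvPolynomial X k)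
  have h1 : e a * e b = 0 := by rw [← map_mul, h, map_zero]
  rcases mul_eq_zero.1 h1 with h2 | h2
  · left; exact e.injective (by rw [h2, map_zero])
  · right; exact e.injective (by rw [h2, map_zero])

lemma clear (θ : FR k X ⊗[k] FR k X) : ∃ s : MvPolynomial X k, s ≠ 0 ∧
    ∃ θ0, inc k X (s ⊗ₜ s) * θ = inc k X θ0 := by
  induction θ using TensorProduct.induction_on with
  | zero => exact ⟨1, one_ne_zero, 0, by simp⟩
  | tmul a b =>
    obtain ⟨p, s, hs, rfl⟩ := IsFractionRing.div_surjective (A := MvPolynomial X k) a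
    obtain ⟨q, t, ht, rfl⟩ := IsFractionRing.div_surjective (A := MvPolynomial X k) b
    have hs0 : s ≠ 0 := nonZeroDivisors.ne_zero hs
    have ht0 : t ≠ 0 := nonZeroDivisors.ne_zero ht
    have hs1 : algebraMap (MvPolynomial X k) (FR k X) s ≠ 0 := by
      simpa using hs0
    have ht1 : algebraMap (MvPolynomial X k) (FR k X) t ≠ 0 := by
      simpa using ht0
    refine ⟨s * t, mul_ne_zero hs0 ht0, (t * p) ⊗ₜ (s * q), ?_⟩
    simp only [inc, Algebra.TensorProduct.map_tmul, IsScalarTower.coe_toAlgHom',
      Algebra.TensorProduct.tmul_mul_tmul, map_mul]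
    congr 1 <;> field_simp
  | add a b ha hb =>
    obtain ⟨s, hs, a0, ha0⟩ := ha
    obtain ⟨t, ht, b0, hb0⟩ := hb
    refine ⟨s * t, mul_ne_zero hs ht, (t ⊗ₜ t) * a0 + (s ⊗ₜ s) * b0, ?_⟩
    have e1 : (s * t) ⊗ₜ[k] (s * t) = (s ⊗ₜ[k] s) * (t ⊗ₜ[k] t) := by simp
    rw [e1, map_mul, map_add, map_mul, map_mul, ← ha0, ← hb0]
    ring

lemma inc_nzd (H : MvPolynomial X k ⊗[k] MvPolynomial X k) (hH : H ≠ 0)
    (θ : FR k X ⊗[k] FR k X) (h : inc k X H * θ = 0) : θ = 0 := by
  obtain ⟨s, hs, θ0, hθ⟩ := clear k X θ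
  have hs1 : algebraMap (MvPolynomial X k) (FR k X) s ≠ 0 := by simpa using hs
  have h1 : inc k X (H * θ0) = 0 := by
    rw [map_mul, ← hθ, mul_left_comm, h, mul_zero]
  have h2 : H * θ0 = 0 := inc_inj k X (by rw [h1, map_zero])
  have h3 : θ0 = 0 := (dom0 k X _ _ h2).resolve_left hH
  rw [h3, map_zero] at hθ
  have h4 : (((algebraMap (MvPolynomial X k) (FR k X) s)⁻¹) ⊗ₜ[k]
      ((algebraMap (MvPolynomial X k) (FR k X) s)⁻¹)) * inc k X (s ⊗ₜ s) = 1 := by
    simp only [inc, Algebra.TensorProduct.map_tmul, IsScalarTower.coe_toAlgHom',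
      Algebra.TensorProduct.tmul_mul_tmul]
    rw [inv_mul_cancel₀ hs1]
    rfl
  calc θ = 1 * θ := (one_mul θ).symm
    _ = _ := by rw [← h4, mul_assoc, hθ, mul_zero]

end dom

section jetfox

variable (k : Type) [Field k] {X : Type} [DecidableEq X]

/-- the commuting point with coordinates the multiplications by the variables -/
noncomputable def pt (j : X) : Module.End k (FR k X) :=
  Algebra.lmul k (FR k X) (algebraMap (MvPolynomial X k) (FR k X) (MvPolynomial.X j))

lemma inc_left (p : MvPolynomial X k) : inc k X (p ⊗ₜ 1) =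
    (algebraMap (MvPolynomial X k) (FR k X) p) ⊗ₜ 1 := by simp [inc]

lemma inc_right (p : MvPolynomial X k) : inc k X (1 ⊗ₜ p) =
    1 ⊗ₜ (algebraMap (MvPolynomial X k) (FR k X) p) := by simp [inc]

lemma jet_fox (i : X) (u : Module.End k (FR k X)) (g : FreeAlgebra k X) :
    jet k (pt k) i u g 1 0 = 0 ∧
    jet k (pt k) i u g 1 1 = Algebra.lmul k (FR k X) (algebraMap _ _ (ab k X g)) ∧
    jet k (pt k) i u g 0 0 = Algebra.lmul k (FR k X) (algebraMap _ _ (ab k X g)) ∧
    jet k (pt k) i u g 0 1 = act k (FR k X) (inc k X (fox k i g 0 1)) u := by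
  induction g using FreeAlgebra.induction with
  | grade0 r =>
    have h1 : (algebraMap (MvPolynomial X k) (FR k X)) (ab k X (algebraMap k _ r)) =
        algebraMap k (FR k X) r := by
      rw [AlgHom.commutes, ← IsScalarTower.algebraMap_apply]
    rw [h1, AlgHom.commutes, AlgHom.commutes, AlgHom.commutes]
    simp [Matrix.algebraMap_matrix_apply]
  | grade1 x =>
    refine ⟨by simp [jet], by simp [jet, ab, pt], by simp [jet, ab, pt], ?_⟩
    have h2 : fox k i (FreeAlgebra.ι k x) 0 1 = if x = i then 1 else 0 := by simp [fox]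
    have h3 : jet k (pt k) i u (FreeAlgebra.ι k x) 0 1 = if x = i then u else 0 := by simp [jet]
    rw [h2, h3]
    split_ifs
    · rw [map_one, Algebra.TensorProduct.one_def, act_tmul, map_one, one_mul, mul_one]
    · simp
  | mul a b ha hb =>
    obtain ⟨h1, h2, h3, h4⟩ := ha
    obtain ⟨h5, h6, h7, h8⟩ := hb
    obtain ⟨f1, f2, f3⟩ := fox_diag k i a
    obtain ⟨f4, f5, f6⟩ := fox_diag k i b
    simp only [map_mul, Matrix.mul_apply, Fin.sum_univ_two, h1, h2, h3, h4, h5, h6, h7, h8,
      f1, f2, f3, f4, f5, f6]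
    refine ⟨by simp, by simp, by simp, ?_⟩
    rw [map_add, map_mul, map_mul, inc_left, inc_right, map_add, LinearMap.add_apply, act_left,
      act_right]
  | add a b ha hb =>
    obtain ⟨h1, h2, h3, h4⟩ := ha
    obtain ⟨h5, h6, h7, h8⟩ := hb
    simp only [map_add, Matrix.add_apply, h1, h2, h3, h4, h5, h6, h7, h8, LinearMap.add_apply]
    refine ⟨by simp, ?_, ?_, ?_⟩ <;> first | rfl | trivial

lemma lift_pt (g : FreeAlgebra k X) : FreeAlgebra.lift k (pt k) g =
    Algebra.lmul k (FR k X) (algebraMap _ _ (ab k X g)) := by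
  have : FreeAlgebra.lift k (pt k) = ((Algebra.lmul k (FR k X)).comp
      (IsScalarTower.toAlgHom k (MvPolynomial X k) (FR k X))).comp (ab k X) := by
    ext x
    simp [ab, pt]
  rw [this]
  rfl

end jetfox


/-- the criterion: constant + form of weight `d` in `I` but not in `I²` + small -/
theorem criterion (k : Type) [Field k] (X : Type) (w : X → ℤ) (d : ℤ) (hd : 1 ≤ d) (c : k)
    (g n : FreeAlgebra k X) (hg : g ∈ hom k w d) (hg0 : ab k X g = 0) (hg2 : g ∉ I2 k X)
    (hn : n ∈ small k w d) :
    TwoSidedIdeal.span ({algebraMap k _ c + g + n} : Set (FreeAlgebra k X)) ≠ ⊤ := by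
  classical
  have h1 : ∃ i, fox k i g 0 1 ≠ 0 := by
    by_contra hcon
    push Not at hcon
    exact hg2 (mem_I2 k g hg0 hcon)
  obtain ⟨i, hi⟩ := h1
  refine main_hensel (E := Module.End k (FR k X)) w d hd (pt k) ?_ i c g n hg hg0 hn ?_
  · intro i j
    simp only [pt]
    rw [← map_mul, ← map_mul, mul_comm, map_mul, map_mul]
  · intro e
    obtain ⟨u, hu⟩ := act_surj k (FR k X) (inc k X (fox k i g 0 1)) (inc_nzd k X _ hi) e
    exact ⟨u, by rw [(jet_fox k i u g).2.2.2, hu]⟩

/-- the case where the abelianisation is not constant -/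
theorem ab_case (k : Type) [Field k] (X : Type) (f : FreeAlgebra k X)
    (hf : ab k X f ∉ Set.range (algebraMap k (MvPolynomial X k))) :
    TwoSidedIdeal.span ({f} : Set (FreeAlgebra k X)) ≠ ⊤ := by
  intro htop
  have hle : TwoSidedIdeal.span ({f} : Set (FreeAlgebra k X)) ≤
      TwoSidedIdeal.comap (ab k X) (TwoSidedIdeal.span {ab k X f}) := by
    rw [TwoSidedIdeal.span_le]
    intro x hx
    rw [Set.mem_singleton_iff] at hx
    subst hx
    show _ ∈ TwoSidedIdeal.comap _ _
    rw [TwoSidedIdeal.mem_comap]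
    exact TwoSidedIdeal.subset_span rfl
  have h1 : (1 : FreeAlgebra k X) ∈ TwoSidedIdeal.comap (ab k X)
      (TwoSidedIdeal.span {ab k X f}) := by
    apply hle
    rw [htop]
    trivial
  rw [TwoSidedIdeal.mem_comap, map_one] at h1
  have h2 : TwoSidedIdeal.span {ab k X f} ≤ (Ideal.span {ab k X f}).toTwoSided := by
    rw [TwoSidedIdeal.span_le]
    intro x hx
    rw [Set.mem_singleton_iff] at hx
    subst hx
    show _ ∈ Ideal.toTwoSided _
    rw [Ideal.mem_toTwoSided]
    exact Ideal.subset_span rfl
  have h3 := h2 h1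
  rw [Ideal.mem_toTwoSided, Ideal.mem_span_singleton] at h3
  have h4 : IsUnit (ab k X f) := isUnit_of_dvd_one h3
  rw [MvPolynomial.isUnit_iff_eq_C_of_isReduced] at h4
  obtain ⟨r, _, hr⟩ := h4
  exact hf ⟨r, by rw [hr]; rfl⟩

/-! ### Homogeneous components and elements of low degree -/

section degree

variable {k : Type} [Field k] {X : Type}

lemma gam_word (l : List X) : gam k X (word k l) = Polynomial.C (word k l) * Polynomial.X ^ l.length := by
  induction l with
  | nil => simp [word]
  | cons x l ih =>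
    have h1 : word k (x :: l) = FreeAlgebra.ι k x * word k l := by simp [word]
    have h2 : gam k X (FreeAlgebra.ι k x) = Polynomial.C (FreeAlgebra.ι k x) * Polynomial.X := by
      simp [gam]
    rw [h1, map_mul, ih, h2, Polynomial.C_mul, List.length_cons, pow_succ']
    calc Polynomial.C (FreeAlgebra.ι k x) * Polynomial.X *
          (Polynomial.C (word k l) * Polynomial.X ^ l.length)
        = Polynomial.C (FreeAlgebra.ι k x) * (Polynomial.X * Polynomial.C (word k l)) *
          Polynomial.X ^ l.length := by simp only [mul_assoc]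
      _ = Polynomial.C (FreeAlgebra.ι k x) * (Polynomial.C (word k l) * Polynomial.X) *
          Polynomial.X ^ l.length := by rw [Polynomial.X_mul_C]
      _ = _ := by simp only [mul_assoc]

lemma comp_word (m : ℕ) (l : List X) :
    comp k m (word k l) = if m = l.length then word k l else 0 := by
  rw [comp, gam_word, Polynomial.coeff_C_mul, Polynomial.coeff_X_pow]
  split_ifs <;> simp

lemma comp_add (m : ℕ) (u v : FreeAlgebra k X) : comp k m (u + v) = comp k m u + comp k m v := by
  simp [comp]

lemma comp_smul (m : ℕ) (r : k) (u : FreeAlgebra k X) : comp k m (r • u) = r • comp k m u := by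
  simp [comp]

lemma comp_mul (m : ℕ) (u v : FreeAlgebra k X) :
    comp k m (u * v) = ∑ p ∈ Finset.HasAntidiagonal.antidiagonal m,
      comp k p.1 u * comp k p.2 v := by
  simp [comp, Polynomial.coeff_mul]

lemma span_words : Submodule.span k (Set.range (word k (X := X))) = ⊤ := by
  rw [eq_top_iff]
  intro v _
  induction v using FreeAlgebra.induction with
  | grade0 r =>
    rw [Algebra.algebraMap_eq_smul_one]
    exact Submodule.smul_mem _ _ (Submodule.subset_span ⟨[], by simp [word]⟩)
  | grade1 x => exact Submodule.subset_span ⟨[x], by simp [word]⟩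
  | mul a b ha hb =>
    have := Submodule.mul_mem_mul (ha trivial) (hb trivial)
    rw [Submodule.span_mul_span] at this
    refine Submodule.span_mono ?_ this
    rintro _ ⟨_, ⟨l, rfl⟩, _, ⟨l', rfl⟩, rfl⟩
    exact ⟨l ++ l', by simp [word]⟩
  | add a b ha hb => exact add_mem (ha trivial) (hb trivial)

lemma comp_mem (m : ℕ) (u : FreeAlgebra k X) : comp k m u ∈ hom k (fun _ : X => (1 : ℤ)) m := by
  have hu : u ∈ Submodule.span k (Set.range (word k (X := X))) := by
    rw [span_words]; trivial
  refine Submodule.span_induction (p := fun u _ => comp k m u ∈ hom k (fun _ : X => (1 : ℤ)) m)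
    ?_ ?_ ?_ ?_ hu
  · rintro _ ⟨l, rfl⟩
    rw [comp_word]
    split_ifs with h
    · exact Submodule.subset_span ⟨l, by simp [h], rfl⟩
    · exact zero_mem _
  · simp [comp, zero_mem]
  · intro x y _ _ hx hy
    rw [comp_add]
    exact add_mem hx hy
  · intro r x _ hx
    rw [comp_smul]
    exact Submodule.smul_mem _ _ hx

lemma sum_comp (D : ℕ) (u : FreeAlgebra k X) (hu : u ∈ deg k D) :
    u = ∑ m ∈ Finset.range (D + 1), comp k m u := by
  refine Submodule.span_induction (p := fun u _ => u = ∑ m ∈ Finset.range (D + 1), comp k m u)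
    ?_ ?_ ?_ ?_ hu
  · rintro _ ⟨l, hl, rfl⟩
    simp only [comp_word]
    rw [Finset.sum_ite_eq' (Finset.range (D + 1)) l.length, if_pos (by simpa using by omega)]
  · simp [comp]
  · intro x y _ _ hx hy
    simp only [comp_add, Finset.sum_add_distrib]
    rw [← hx, ← hy]
  · intro r x _ hx
    simp only [comp_smul, ← Finset.smul_sum]
    rw [← hx]

lemma ab_comp (m : ℕ) (u : FreeAlgebra k X) (hu : ab k X u = 0) : ab k X (comp k m u) = 0 := by
  let e : MvPolynomial X k →ₐ[k] Polynomial (MvPolynomial X k) :=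
    MvPolynomial.aeval (fun j => Polynomial.C (MvPolynomial.X j) * Polynomial.X)
  have h : (Polynomial.mapAlgHom (ab k X)).comp (gam k X) = e.comp (ab k X) := by
    apply FreeAlgebra.hom_ext
    funext j
    simp [gam, ab, e]
  have h2 := AlgHom.congr_fun h u
  rw [AlgHom.comp_apply, AlgHom.comp_apply, hu, map_zero] at h2
  have h3 := congrArg (fun p => Polynomial.coeff p m) h2
  simpa [comp] using h3

lemma comp_algebraMap (m : ℕ) (r : k) : comp k m (algebraMap k (FreeAlgebra k X) r) =
    if m = 0 then algebraMap k _ r else 0 := by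
  have h1 : algebraMap k (FreeAlgebra k X) r = r • word k [] := by
    simp [word, Algebra.algebraMap_eq_smul_one]
  rw [h1, comp_smul, comp_word]
  split_ifs <;> simp_all

/-- the commutator ideal has no elements of degree at most one -/
lemma comp_I_low (m : ℕ) (hm : m ≤ 1) (u : FreeAlgebra k X) (hu : ab k X u = 0) :
    comp k m u = 0 := by
  have h0 := ab_comp m u hu
  have h1 := comp_mem m u
  interval_cases m
  · have h2 : comp k 0 u ∈ Submodule.span k {(1 : FreeAlgebra k X)} := by
      refine Submodule.span_mono ?_ h1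
      rintro _ ⟨l, hl, rfl⟩
      have : l = [] := by
        rw [List.map_const', List.sum_replicate] at hl
        simpa using hl
      subst this
      simp [word]
    obtain ⟨r, hr⟩ := Submodule.mem_span_singleton.1 h2
    rw [← hr, map_smul, map_one] at h0
    have h3 : r = 0 := by
      by_contra hne
      exact one_ne_zero ((smul_eq_zero.1 h0).resolve_left hne)
    rw [← hr, h3, zero_smul]
  · -- degree one
    let s : MvPolynomial X k →ₗ[k] FreeAlgebra k X :=
      (MvPolynomial.basisMonomials X k).constr k (fun q =>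
        ∑ x ∈ q.support, FreeAlgebra.ι k x)
    have hs : ∀ x : X, s (MvPolynomial.X x) = FreeAlgebra.ι k x := by
      intro x
      have h2 : (MvPolynomial.X x : MvPolynomial X k) =
          MvPolynomial.basisMonomials X k (Finsupp.single x 1) := by
        simp [MvPolynomial.X]
      rw [h2]
      simp only [s, Module.Basis.constr_basis]
      rw [Finsupp.support_single_ne_zero x one_ne_zero]
      simp
    have h3 : s (ab k X (comp k 1 u)) = comp k 1 u := by
      refine Submodule.span_induction (p := fun v _ => s (ab k X v) = v) ?_ ?_ ?_ ?_ h1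
      · rintro _ ⟨l, hl, rfl⟩
        have h4 : l.length = 1 := by
          rw [List.map_const', List.sum_replicate] at hl
          simpa using hl
        obtain ⟨x, rfl⟩ := List.length_eq_one_iff.1 h4
        have h5 : ab k X (word k [x]) = MvPolynomial.X x := by simp [word, ab]
        rw [h5, hs]
        simp [word]
      · simp
      · intro x y _ _ hx hy
        rw [map_add, map_add, hx, hy]
      · intro r x _ hx
        rw [map_smul, map_smul, hx]
    rw [← h3, h0, map_zero]

/-- homogeneous components of elements of `I²` are sums of products of two homogeneous elements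
of `I` -/
lemma comp_I2 (m : ℕ) (u : FreeAlgebra k X) (hu : u ∈ I2 k X) :
    comp k m u ∈ Submodule.span k {v | ∃ a b : ℕ, a + b = m ∧ ∃ p q : FreeAlgebra k X,
      ab k X p = 0 ∧ ab k X q = 0 ∧ v = comp k a p * comp k b q} := by
  refine Submodule.mul_induction_on hu ?_ ?_
  · intro p hp q hq
    rw [comp_mul]
    refine Submodule.sum_mem _ (fun x hx => Submodule.subset_span ?_)
    exact ⟨x.1, x.2, Finset.HasAntidiagonal.mem_antidiagonal.1 hx, p, q, by simpa using hp, by simpa using hq, rfl⟩
  · intro x y hx hy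
    rw [comp_add]
    exact add_mem hx hy

lemma comp_I2_low (m : ℕ) (hm : m ≤ 3) (u : FreeAlgebra k X) (hu : u ∈ I2 k X) :
    comp k m u = 0 := by
  have h := comp_I2 m u hu
  have h2 : Submodule.span k {v | ∃ a b : ℕ, a + b = m ∧ ∃ p q : FreeAlgebra k X,
      ab k X p = 0 ∧ ab k X q = 0 ∧ v = comp k a p * comp k b q} ≤ ⊥ := by
    rw [Submodule.span_le]
    rintro _ ⟨a, b, hab, p, q, hp, hq, rfl⟩
    rcases Nat.lt_or_ge a 2 with ha | ha
    · rw [comp_I_low a (by omega) p hp, zero_mul]
      exact zero_mem _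
    · rw [comp_I_low b (by omega) q hq, mul_zero]
      exact zero_mem _
  simpa using h2 h

lemma comp_comp (m m' : ℕ) (u : FreeAlgebra k X) :
    comp k m (comp k m' u) = if m = m' then comp k m' u else 0 := by
  have hu : u ∈ Submodule.span k (Set.range (word k (X := X))) := by
    rw [span_words]; trivial
  refine Submodule.span_induction (p := fun u _ =>
    comp k m (comp k m' u) = if m = m' then comp k m' u else 0) ?_ ?_ ?_ ?_ hu
  · rintro _ ⟨l, rfl⟩
    rw [comp_word]
    by_cases h : m' = l.length
    · rw [if_pos h, comp_word, h]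
    · rw [if_neg h]
      simp [comp]
  · simp [comp]
  · intro x y _ _ hx hy
    rw [comp_add, comp_add, hx, hy]
    split_ifs <;> simp
  · intro r x _ hx
    rw [comp_smul, comp_smul, hx]
    split_ifs <;> simp

/-- homogeneous elements of `I` of degree less than `d` are small -/
lemma small_of_lt (d m : ℕ) (hm : m < d) (u : FreeAlgebra k X)
    (hu : ab k X (comp k m u) = 0) :
    comp k m u ∈ small k (fun _ : X => (1 : ℤ)) d := by
  refine Submodule.subset_span ⟨[((m : ℤ), comp k m u)], by simp, ?_, ?_, by simp⟩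
  · intro p hp
    simp only [List.mem_singleton] at hp
    subst hp
    exact ⟨comp_mem m u, hu⟩
  · simp
    omega

/-- homogeneous elements of `I²` of degree less than `2 * d` are small -/
lemma small_of_I2 (d m : ℕ) (hm : m < 2 * d) (u : FreeAlgebra k X) (hu : u ∈ I2 k X) :
    comp k m u ∈ small k (fun _ : X => (1 : ℤ)) d := by
  refine Submodule.span_le.2 ?_ (comp_I2 m u hu)
  rintro _ ⟨a, b, hab, p, q, hp, hq, rfl⟩
  refine Submodule.subset_span ⟨[((a : ℤ), comp k a p), ((b : ℤ), comp k b q)], by simp, ?_, ?_,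
    by simp⟩
  · intro x hx
    simp only [List.mem_cons, List.not_mem_nil, or_false] at hx
    rcases hx with rfl | rfl
    · exact ⟨comp_mem a p, ab_comp a p hp⟩
    · exact ⟨comp_mem b q, ab_comp b q hq⟩
  · simp
    omega

lemma comp_eq_zero (D e : ℕ) (h : D < e) (f : FreeAlgebra k X) (hf : f ∈ deg k D) :
    comp k e f = 0 := by
  refine Submodule.span_induction (p := fun f _ => comp k e f = 0) ?_ ?_ ?_ ?_ hf
  · rintro _ ⟨l, hl, rfl⟩
    rw [comp_word, if_neg (by omega)]
  · simp [comp]
  · intro x y _ _ hx hy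
    rw [comp_add, hx, hy, add_zero]
  · intro r x _ hx
    rw [comp_smul, hx, smul_zero]

/-- if a homogeneous component of degree `e`, where `e` is more than half of the degree, is outside
the square of the commutator ideal, the generated ideal is proper -/
theorem core (D e : ℕ) (he1 : 1 ≤ e) (hD : D < 2 * e ∨ D ≤ 3)
    (f : FreeAlgebra k X) (hf : f ∈ deg k D) (hfe : comp k e f ∉ I2 k X) :
    TwoSidedIdeal.span ({f} : Set (FreeAlgebra k X)) ≠ ⊤ := by
  have heD : e ≤ D := by
    by_contra h
    apply hfe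
    rw [comp_eq_zero D e (by omega) f hf]
    exact zero_mem _
  classical
  by_cases hab : ab k X f ∈ Set.range (algebraMap k (MvPolynomial X k))
  swap
  · exact ab_case k X f hab
  obtain ⟨c, hc⟩ := hab
  have hf0 : ab k X (f - algebraMap k _ c) = 0 := by
    rw [map_sub, AlgHom.commutes, ← hc, sub_self]
  have hcomp : ∀ m, 1 ≤ m → comp k m (f - algebraMap k _ c) = comp k m f := by
    intro m hm
    have h1 : f = (f - algebraMap k _ c) + algebraMap k _ c := by abel
    conv_rhs => rw [h1]
    rw [comp_add, comp_algebraMap, if_neg (by omega), add_zero]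
  have habm : ∀ m, 1 ≤ m → ab k X (comp k m f) = 0 := by
    intro m hm
    rw [← hcomp m hm]
    exact ab_comp m _ hf0
  have h00 : comp k 0 f = algebraMap k _ c := by
    have h1 : f = (f - algebraMap k _ c) + algebraMap k _ c := by abel
    rw [h1, comp_add, comp_algebraMap, if_pos rfl, comp_I_low 0 (by omega) _ hf0, zero_add]
  -- the largest degree with component outside `I²`
  let Q : ℕ → Prop := fun m => 1 ≤ m ∧ comp k m f ∉ I2 k X
  have hQe : Q e := ⟨he1, hfe⟩
  let d := Nat.findGreatest Q D
  have hd : Q d := Nat.findGreatest_spec heD hQe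
  have hdD : d ≤ D := Nat.findGreatest_le D
  have hed : e ≤ d := Nat.le_findGreatest heD hQe
  have hgt : ∀ m, d < m → m ≤ D → comp k m f ∈ I2 k X := by
    intro m h1 h2
    by_contra h3
    exact Nat.findGreatest_is_greatest h1 h2 ⟨by omega, h3⟩
  -- decomposition
  let n := ∑ m ∈ (Finset.range (D + 1)).filter (fun m => m ≠ 0 ∧ m ≠ d), comp k m f
  have hdec : f = algebraMap k _ c + comp k d f + n := by
    have h1 := sum_comp D f hf
    have h2 : ∑ m ∈ Finset.range (D + 1), comp k m f =
        ∑ m ∈ Finset.range (D + 1), ((if m = 0 then comp k m f else 0) +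
          (if m = d then comp k m f else 0) +
          (if m ≠ 0 ∧ m ≠ d then comp k m f else 0)) := by
      apply Finset.sum_congr rfl
      intro m _
      have hd1 := hd.1
      by_cases hm0 : m = 0
      · have : ¬ (m = d) := by omega
        simp [hm0, this]
        intro h
        omega
      · by_cases hmd : m = d
        · simp [hm0, hmd]
          intro h
          omega
        · simp [hm0, hmd]
    rw [h2, Finset.sum_add_distrib, Finset.sum_add_distrib, Finset.sum_ite_eq',
      Finset.sum_ite_eq', if_pos (by simp), if_pos (by simp; omega), h00,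
      ← Finset.sum_filter] at h1
    exact h1
  have hn : n ∈ small k (fun _ : X => (1 : ℤ)) d := by
    refine Submodule.sum_mem _ (fun m hm => ?_)
    simp only [Finset.mem_filter, Finset.mem_range] at hm
    obtain ⟨hm1, hm0, hmd⟩ := hm
    rcases Nat.lt_or_ge m d with h | h
    · exact small_of_lt d m h f (habm m (by omega))
    · have h1 := hgt m (by omega) (by omega)
      rcases hD with hD | hD
      · have := small_of_I2 d m (by omega) _ h1
        rwa [comp_comp, if_pos rfl] at this
      · have h2 := comp_I2_low m (by omega) _ h1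
        rw [comp_comp, if_pos rfl] at h2
        rw [h2]
        exact zero_mem _
  rw [hdec]
  exact criterion k X (fun _ => 1) d (by have := hd.1; omega) c (comp k d f) n (comp_mem d f)
    (habm d hd.1) hd.2 hn

/-- a nonzero homogeneous component of degree at most three is outside `I²` -/
lemma comp_notMem (e : ℕ) (he : e ≤ 3) (f : FreeAlgebra k X) (h : comp k e f ≠ 0) :
    comp k e f ∉ I2 k X := by
  intro h1
  apply h
  have := comp_I2_low e he _ h1
  rwa [comp_comp, if_pos rfl] at this

theorem cubic (f : FreeAlgebra k X) (hf : f ∈ deg k 3)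
    (hc : f ∉ Set.range (algebraMap k (FreeAlgebra k X))) :
    TwoSidedIdeal.span ({f} : Set (FreeAlgebra k X)) ≠ ⊤ := by
  by_cases h : ∃ e, 1 ≤ e ∧ e ≤ 3 ∧ comp k e f ≠ 0
  · obtain ⟨e, h1, h3, he⟩ := h
    exact core 3 e h1 (Or.inr le_rfl) f hf (comp_notMem e h3 f he)
  · exfalso
    push Not at h
    apply hc
    have h1 := sum_comp 3 f hf
    rw [Finset.sum_range_succ, Finset.sum_range_succ, Finset.sum_range_succ,
      Finset.sum_range_succ, Finset.sum_range_zero, h 1 (by norm_num) (by norm_num),
      h 2 (by norm_num) (by norm_num), h 3 (by norm_num) (by norm_num)] at h1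
    have h2 := comp_mem 0 f
    have h3 : comp k 0 f ∈ Submodule.span k {(1 : FreeAlgebra k X)} := by
      refine Submodule.span_mono ?_ h2
      rintro _ ⟨l, hl, rfl⟩
      have : l = [] := by
        rw [List.map_const', List.sum_replicate] at hl
        simpa using hl
      subst this
      simp [word]
    obtain ⟨r, hr⟩ := Submodule.mem_span_singleton.1 h3
    refine ⟨r, ?_⟩
    rw [h1, ← hr, Algebra.algebraMap_eq_smul_one]
    simp

end degree


end Pool.Agent.Helper591.Cohn
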