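import Mathlib

/-!
# Definitions for elements of free algebras generating proper ideals
-/

set_option autoImplicit false

namespace Pool.Agent.Helper591.Cohn

/-- the word with the given letters -/
def word (k : Type) [Field k] {X : Type} (l : List X) : FreeAlgebra k X :=
  (l.map (FreeAlgebra.ι k)).prod

/-- the abelianisation -/
noncomputable def ab (k : Type) [Field k] (X : Type) : FreeAlgebra k X →ₐ[k] MvPolynomial X k :=
  FreeAlgebra.lift k (fun j => MvPolynomial.X j)

/-- the square of the commutator ideal (the kernel of `ab`) -/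
noncomputable def I2 (k : Type) [Field k] (X : Type) : Submodule k (FreeAlgebra k X) :=
  LinearMap.ker (ab k X).toLinearMap * LinearMap.ker (ab k X).toLinearMap

/-- combinations of words of weight `d` -/
def hom (k : Type) [Field k] {X : Type} (w : X → ℤ) (d : ℤ) : Submodule k (FreeAlgebra k X) :=
  Submodule.span k {v | ∃ l : List X, (l.map w).sum = d ∧ v = word k l}

/-- combinations of words of weight less than `d` -/
def low (k : Type) [Field k] {X : Type} (w : X → ℤ) (d : ℤ) : Submodule k (FreeAlgebra k X) :=
  Submodule.span k {v | ∃ l : List X, (l.map w).sum < d ∧ v = word k l}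

/-- sums of products `u₁ ⋯ u_r` (`r ≥ 1`) of homogeneous elements of the commutator ideal, of
total weight less than `r * d` -/
def small (k : Type) [Field k] {X : Type} (w : X → ℤ) (d : ℤ) : Submodule k (FreeAlgebra k X) :=
  Submodule.span k {v | ∃ l : List (ℤ × FreeAlgebra k X), l ≠ [] ∧
    (∀ p ∈ l, p.2 ∈ hom k w p.1 ∧ ab k X p.2 = 0) ∧
    (l.map Prod.fst).sum < l.length * d ∧ v = (l.map Prod.snd).prod}


/-- the homomorphism marking the degree -/
noncomputable def gam (k : Type) [Field k] (X : Type) :
    FreeAlgebra k X →ₐ[k] Polynomial (FreeAlgebra k X) :=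
  FreeAlgebra.lift k (fun j => Polynomial.C (FreeAlgebra.ι k j) * Polynomial.X)

/-- the homogeneous component of degree `m` -/
noncomputable def comp (k : Type) [Field k] {X : Type} (m : ℕ) (u : FreeAlgebra k X) :
    FreeAlgebra k X := (gam k X u).coeff m

/-- elements of degree at most `D` -/
def deg (k : Type) [Field k] {X : Type} (D : ℕ) : Submodule k (FreeAlgebra k X) :=
  Submodule.span k {v | ∃ l : List X, l.length ≤ D ∧ v = word k l}

/-- extension of scalars of free algebras, `k⟨X⟩ → K⟨X⟩` -/
noncomputable def extK (k : Type) [Field k] (K : Type) [Field K] [Algebra k K] (X : Type) :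
    FreeAlgebra k X →ₐ[k] FreeAlgebra K X :=
  FreeAlgebra.lift k (FreeAlgebra.ι K)

end Pool.Agent.Helper591.Cohn
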