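import Pool.Agent.Helper591.Cohn.Generic

set_option autoImplicit false

namespace Pool.Agent.Helper591.Cohn

section descent

variable (k : Type) [Field k] (K : Type) [Field K] [Algebra k K] (X : Type)

lemma extK_word (l : List X) : extK k K X (word k l) = word K l := by
  induction l with
  | nil => simp [word]
  | cons x l ih =>
    have h1 : word k (x :: l) = FreeAlgebra.ι k x * word k l := by simp [word]
    have h2 : word K (x :: l) = FreeAlgebra.ι K x * word K l := by
      simp [word]
    rw [h1, h2, map_mul, ih]
    simp [extK]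

/-- apply a linear functional to all coefficients -/
noncomputable def lam (f : K →ₗ[k] k) : FreeAlgebra K X →ₗ[k] FreeAlgebra k X :=
  (FreeAlgebra.basisFreeMonoid k X).repr.symm.toLinearMap ∘ₗ
    (Finsupp.mapRange.linearMap f) ∘ₗ
    ((FreeAlgebra.basisFreeMonoid K X).repr.toLinearMap.restrictScalars k)

lemma lam_smul (f : K →ₗ[k] k) (c : K) (u : FreeAlgebra K X) :
    lam k K X f (c • u) = lam k K X (f ∘ₗ LinearMap.mulLeft k c) u := by
  simp only [lam, LinearMap.comp_apply, LinearMap.coe_restrictScalars, LinearEquiv.coe_coe,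
    map_smul]
  congr 1
  ext m
  simp

lemma lam_word (f : K →ₗ[k] k) (l : List X) :
    lam k K X f (word K l) = f 1 • word k l := by
  rw [← basis_word, ← basis_word]
  simp only [lam, LinearMap.comp_apply, LinearMap.coe_restrictScalars, LinearEquiv.coe_coe,
    Module.Basis.repr_self, Finsupp.mapRange.linearMap_apply, Finsupp.mapRange_single]
  rw [Module.Basis.repr_symm_single]

lemma lam_left (x : X) (u : FreeAlgebra K X) : ∀ f : K →ₗ[k] k,
    lam k K X f (FreeAlgebra.ι K x * u) = FreeAlgebra.ι k x * lam k K X f u := by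
  have hu : u ∈ Submodule.span K (Set.range (word K (X := X))) := by
    rw [span_words]; trivial
  refine Submodule.span_induction (p := fun u _ => ∀ f : K →ₗ[k] k,
    lam k K X f (FreeAlgebra.ι K x * u) = FreeAlgebra.ι k x * lam k K X f u) ?_ ?_ ?_ ?_ hu
  · rintro _ ⟨l, rfl⟩ f
    have h1 : FreeAlgebra.ι K x * word K l = word K (x :: l) := by simp [word]
    have h2 : FreeAlgebra.ι k x * word k l = word k (x :: l) := by simp [word]
    rw [h1, lam_word, lam_word, mul_smul_comm, h2]
  · intro f; simp
  · intro a b _ _ ha hb f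
    rw [mul_add, map_add, map_add, ha, hb, mul_add]
  · intro c a _ ha f
    rw [mul_smul_comm, lam_smul, lam_smul, ha]

lemma lam_right (x : X) (u : FreeAlgebra K X) : ∀ f : K →ₗ[k] k,
    lam k K X f (u * FreeAlgebra.ι K x) = lam k K X f u * FreeAlgebra.ι k x := by
  have hu : u ∈ Submodule.span K (Set.range (word K (X := X))) := by
    rw [span_words]; trivial
  refine Submodule.span_induction (p := fun u _ => ∀ f : K →ₗ[k] k,
    lam k K X f (u * FreeAlgebra.ι K x) = lam k K X f u * FreeAlgebra.ι k x) ?_ ?_ ?_ ?_ hu
  · rintro _ ⟨l, rfl⟩ f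
    have h1 : word K l * FreeAlgebra.ι K x = word K (l ++ [x]) := by simp [word]
    have h2 : word k l * FreeAlgebra.ι k x = word k (l ++ [x]) := by simp [word]
    rw [h1, lam_word, lam_word, smul_mul_assoc, h2]
  · intro f; simp
  · intro a b _ _ ha hb f
    rw [add_mul, map_add, map_add, ha, hb, add_mul]
  · intro c a _ ha f
    rw [smul_mul_assoc, lam_smul, lam_smul, ha]

lemma lam_ext (f : K →ₗ[k] k) (u : FreeAlgebra k X) :
    lam k K X f (extK k K X u) = f 1 • u := by
  have hu : u ∈ Submodule.span k (Set.range (word k (X := X))) := by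
    rw [span_words]; trivial
  refine Submodule.span_induction (p := fun u _ =>
    lam k K X f (extK k K X u) = f 1 • u) ?_ ?_ ?_ ?_ hu
  · rintro _ ⟨l, rfl⟩
    rw [extK_word, lam_word]
  · simp
  · intro a b _ _ ha hb
    rw [map_add, map_add, ha, hb, smul_add]
  · intro r a _ ha
    rw [map_smul, map_smul, ha, smul_comm]

/-- proper principal ideals stay proper after extension of the base field -/
theorem descent (f : FreeAlgebra k X)
    (hf : TwoSidedIdeal.span ({f} : Set (FreeAlgebra k X)) ≠ ⊤) :
    TwoSidedIdeal.span ({extK k K X f} : Set (FreeAlgebra K X)) ≠ ⊤ := by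
  intro htop
  let I : TwoSidedIdeal (FreeAlgebra k X) := TwoSidedIdeal.span {f}
  let Q : FreeAlgebra K X → Prop := fun u => ∀ φ : K →ₗ[k] k, lam k K X φ u ∈ I
  have hsmul : ∀ (r : k) (v : FreeAlgebra k X), v ∈ I → r • v ∈ I := by
    intro r v hv
    rw [Algebra.smul_def]
    exact I.mul_mem_left _ _ hv
  have hleft : ∀ v u : FreeAlgebra K X, Q u → Q (v * u) := by
    intro v
    induction v using FreeAlgebra.induction with
    | grade0 r =>
      intro u hu φ
      rw [← Algebra.smul_def, lam_smul]
      exact hu _
    | grade1 x =>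
      intro u hu φ
      rw [lam_left]
      exact I.mul_mem_left _ _ (hu φ)
    | mul a b ha hb =>
      intro u hu
      rw [mul_assoc]
      exact ha _ (hb _ hu)
    | add a b ha hb =>
      intro u hu φ
      rw [add_mul, map_add]
      exact I.add_mem (ha u hu φ) (hb u hu φ)
  have hright : ∀ v u : FreeAlgebra K X, Q u → Q (u * v) := by
    intro v
    induction v using FreeAlgebra.induction with
    | grade0 r =>
      intro u hu φ
      rw [← Algebra.commutes, ← Algebra.smul_def, lam_smul]
      exact hu _
    | grade1 x =>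
      intro u hu φ
      rw [lam_right]
      exact I.mul_mem_right _ _ (hu φ)
    | mul a b ha hb =>
      intro u hu
      rw [← mul_assoc]
      exact hb _ (ha _ hu)
    | add a b ha hb =>
      intro u hu φ
      rw [mul_add, map_add]
      exact I.add_mem (ha u hu φ) (hb u hu φ)
  let J : TwoSidedIdeal (FreeAlgebra K X) := TwoSidedIdeal.mk' {u | Q u}
    (fun φ => by rw [map_zero]; exact I.zero_mem)
    (fun {u v} hu hv φ => by rw [map_add]; exact I.add_mem (hu φ) (hv φ))
    (fun {u} hu φ => by rw [map_neg]; exact I.neg_mem (hu φ))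
    (fun {v u} hu => hleft v u hu)
    (fun {u v} hu => hright v u hu)
  have hJ : ∀ u, u ∈ J ↔ Q u := by
    intro u
    exact TwoSidedIdeal.mem_mk' _ _ _ _ _ _ _
  have hle : TwoSidedIdeal.span ({extK k K X f} : Set (FreeAlgebra K X)) ≤ J := by
    rw [TwoSidedIdeal.span_le]
    intro x hx
    rw [Set.mem_singleton_iff] at hx
    subst hx
    show _ ∈ J
    rw [hJ]
    intro φ
    rw [lam_ext]
    exact hsmul _ _ (TwoSidedIdeal.subset_span rfl)
  have h1 : (1 : FreeAlgebra K X) ∈ J := by
    apply hle
    rw [htop]
    trivial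
  rw [hJ] at h1
  obtain ⟨φ, hφ⟩ := LinearMap.exists_leftInverse_of_injective (Algebra.linearMap k K)
    (LinearMap.ker_eq_bot.2 (algebraMap k K).injective)
  have h2 : φ 1 = 1 := by
    have := LinearMap.congr_fun hφ 1
    simpa using this
  have h3 := h1 φ
  have h4 : (1 : FreeAlgebra K X) = extK k K X 1 := by rw [map_one]
  rw [h4, lam_ext, h2, one_smul] at h3
  apply hf
  rw [eq_top_iff]
  intro x _
  have := I.mul_mem_left x 1 h3
  rwa [mul_one] at this

/-- **Transcendental constant term.** -/
theorem transcendental_constant (c : K) (hc : Transcendental k c) (g : FreeAlgebra k X)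
    (hg0 : ab k X g = 0) (hg2 : g ∉ I2 k X) :
    TwoSidedIdeal.span ({extK k K X g - algebraMap K _ c} : Set (FreeAlgebra K X)) ≠ ⊤ := by
  have hinj : Function.Injective (Polynomial.aeval c : Polynomial k →ₐ[k] K) :=
    transcendental_iff_injective.1 hc
  let ψ : RatFunc k →+* K := IsFractionRing.lift (A := Polynomial k) (K := RatFunc k)
    (g := ((Polynomial.aeval c : Polynomial k →ₐ[k] K) : Polynomial k →+* K)) hinj
  have hψ : ∀ p : Polynomial k, ψ (algebraMap (Polynomial k) (RatFunc k) p) =
      Polynomial.aeval c p := by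
    intro p
    exact IsFractionRing.lift_algebraMap _ p
  letI : Algebra (RatFunc k) K := ψ.toAlgebra
  have h1 := descent (RatFunc k) K X _ (generic k X g hg0 hg2)
  have hX : algebraMap (RatFunc k) K RatFunc.X = c := by
    show ψ RatFunc.X = c
    rw [← RatFunc.algebraMap_X, hψ]
    simp
  have hk : ∀ r : k, algebraMap (RatFunc k) K (algebraMap k (RatFunc k) r) = algebraMap k K r := by
    intro r
    show ψ _ = _
    have h2 : algebraMap k (RatFunc k) r =
        algebraMap (Polynomial k) (RatFunc k) (Polynomial.C r) := by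
      rw [← Polynomial.algebraMap_eq, ← IsScalarTower.algebraMap_apply]
    rw [h2, hψ, Polynomial.aeval_C]
  have h3 : ∀ u : FreeAlgebra k X, extK (RatFunc k) K X (ext k X u) = extK k K X u := by
    intro u
    induction u using FreeAlgebra.induction with
    | grade0 r =>
      have e1 : ext k X (algebraMap k _ r) =
          algebraMap (RatFunc k) _ (algebraMap k (RatFunc k) r) := by
        rw [AlgHom.commutes, ← IsScalarTower.algebraMap_apply]
      rw [e1, AlgHom.commutes, AlgHom.commutes,
        IsScalarTower.algebraMap_apply (RatFunc k) K (FreeAlgebra K X), hk,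
        ← IsScalarTower.algebraMap_apply]
    | grade1 x => simp [ext, extK]
    | mul a b ha hb => rw [map_mul, map_mul, map_mul, ha, hb]
    | add a b ha hb => rw [map_add, map_add, map_add, ha, hb]
  rw [map_sub, h3, AlgHom.commutes, IsScalarTower.algebraMap_apply (RatFunc k) K (FreeAlgebra K X),
    hX] at h1
  exact h1

lemma ab_extK (g : FreeAlgebra k X) :
    ab K X (extK k K X g) = MvPolynomial.map (algebraMap k K) (ab k X g) := by
  induction g using FreeAlgebra.induction with
  | grade0 r =>
    rw [AlgHom.commutes, AlgHom.commutes, IsScalarTower.algebraMap_apply k K (FreeAlgebra K X),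
      AlgHom.commutes]
    simp [MvPolynomial.algebraMap_eq]
  | grade1 x => simp [extK, ab]
  | mul a b ha hb => simp only [map_mul, ha, hb]
  | add a b ha hb => simp only [map_add, ha, hb]

/-- **Transcendental constant term**, for all elements outside `k + I²`. -/
theorem transcendental_constant' (c : K) (hc : Transcendental k c) (g : FreeAlgebra k X)
    (hg : ∀ r : k, g - algebraMap k _ r ∉ I2 k X) :
    TwoSidedIdeal.span ({extK k K X g - algebraMap K _ c} : Set (FreeAlgebra K X)) ≠ ⊤ := by
  classical
  by_cases hab : ab k X g ∈ Set.range (algebraMap k (MvPolynomial X k))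
  · obtain ⟨r, hr⟩ := hab
    have h0 : ab k X (g - algebraMap k _ r) = 0 := by
      rw [map_sub, AlgHom.commutes, ← hr, sub_self]
    have hc' : Transcendental k (c - algebraMap k K r) := by
      intro h
      apply hc
      have := h.add (isAlgebraic_algebraMap r)
      rwa [sub_add_cancel] at this
    have h1 := transcendental_constant k K X _ hc' _ h0 (hg r)
    have h2 : extK k K X (g - algebraMap k _ r) - algebraMap K _ (c - algebraMap k K r) =
        extK k K X g - algebraMap K _ c := by
      rw [map_sub, map_sub, AlgHom.commutes, ← IsScalarTower.algebraMap_apply]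
      abel
    rwa [h2] at h1
  · apply ab_case
    rintro ⟨s, hs⟩
    apply hab
    rw [map_sub, AlgHom.commutes, ab_extK] at hs
    have h3 : MvPolynomial.map (algebraMap k K) (ab k X g) = MvPolynomial.C (s + c) := by
      rw [map_add]
      exact (sub_eq_iff_eq_add.1 hs.symm)
    refine ⟨(ab k X g).coeff 0, ?_⟩
    rw [MvPolynomial.algebraMap_eq]
    ext m
    rw [MvPolynomial.coeff_C]
    split_ifs with hm
    · rw [hm]
    · have h4 := congrArg (MvPolynomial.coeff m) h3
      rw [MvPolynomial.coeff_map, MvPolynomial.coeff_C, if_neg hm] at h4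
      exact ((map_eq_zero_iff _ (algebraMap k K).injective).1 h4).symm

end descent

end Pool.Agent.Helper591.Cohn
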