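import Pool.Agent.Helper591.Cohn.Core

set_option autoImplicit false

open LaurentPolynomial
open scoped TensorProduct

namespace Pool.Agent.Helper591.Cohn

section approx2

variable {k : Type} [Field k] {X : Type} {E : Type} [Ring E] [Algebra k E]

lemma mem_hom0 (g : FreeAlgebra k X) : g ∈ hom k (fun _ : X => (0 : ℤ)) 0 := by
  have h : g ∈ Submodule.span k (Set.range (word k (X := X))) := by
    rw [span_words]; trivial
  refine Submodule.span_mono ?_ h
  rintro _ ⟨l, rfl⟩
  exact ⟨l, by simp, rfl⟩

lemma approx2 [DecidableEq X] (α : X → E) (i : X) (g : FreeAlgebra k X)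
    (h0 : FreeAlgebra.lift k α g = 0)
    (hs : ∀ e : E, ∃ u : E, jet k α i u g 0 1 = e) (M : ℕ) :
    ∃ a : X → LaurentPolynomial E, (∀ j, a j - C (α j) ∈ P 1) ∧
      ev k (fun _ : X => (0 : ℤ)) a g - T 1 ∈ P ((M : ℤ) + 1) := by
  induction M with
  | zero =>
    refine ⟨fun j => C (α j), fun j => by simp [zero_mem], ?_⟩
    have h1 := lemA (fun _ : X => (0 : ℤ)) 0 α (fun j => C (α j))
      (fun j => by simp [zero_mem]) g (mem_hom0 g)
    rw [h0, map_zero, sub_zero, T_zero, one_mul] at h1
    have := sub_mem h1 (T_mem (E := E) 1)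
    simpa using this
  | succ M ih =>
    obtain ⟨a, ha, haM⟩ := ih
    obtain ⟨r, hr⟩ := P_lead haM
    obtain ⟨u, hu⟩ := hs (-r)
    let m : ℤ := (M : ℤ) + 1
    have hm : 1 ≤ m := by simp only [m]; omega
    let a' : X → LaurentPolynomial E := fun j => a j + if j = i then T m * C u else 0
    have hmem : ∀ j, (if j = i then T m * C u else 0 : LaurentPolynomial E) ∈ P m := by
      intro j
      split_ifs
      · have := P_mul (T_mem (E := E) m) (C_mem u)
        rwa [add_zero] at this
      · exact zero_mem _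
    have hB := lemB (fun _ : X => (0 : ℤ)) 0 α a ha i u m hm a' (fun j => rfl) g (mem_hom0 g)
    refine ⟨a', fun j => ?_, ?_⟩
    · have := add_mem (ha j) (P_mono hm (hmem j))
      convert this using 1
      simp only [a']
      abel
    · have h3 := add_mem hr hB
      push_cast
      have e : (M : ℤ) + 1 + 1 = m + 1 := rfl
      rw [e]
      convert h3 using 1
      rw [hu, T_zero, one_mul]
      simp only [map_neg, mul_neg]
      abel

/-- evaluation of polynomials with coefficients in the free algebra, the variable going to `T` -/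
noncomputable def theta (k : Type) [Field k] {X : Type} {E : Type} [Ring E] [Algebra k E]
    (a : X → LaurentPolynomial E) :
    Polynomial (FreeAlgebra k X) →+* LaurentPolynomial E :=
  Polynomial.eval₂RingHom' (ev k (fun _ : X => (0 : ℤ)) a : FreeAlgebra k X →+* _) (T 1)
    (fun u => (commute_T 1 _).symm)

lemma theta_C (a : X → LaurentPolynomial E) (u : FreeAlgebra k X) :
    theta k a (Polynomial.C u) = ev k (fun _ : X => (0 : ℤ)) a u := by
  simp [theta, Polynomial.eval₂RingHom']

lemma theta_X (a : X → LaurentPolynomial E) :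
    theta k a (Polynomial.X) = T 1 := by
  simp [theta, Polynomial.eval₂RingHom']

lemma theta_bounded (U : Polynomial (FreeAlgebra k X)) :
    ∃ c : ℤ, ∀ a : X → LaurentPolynomial E, (∀ j, a j ∈ P 0) → theta k a U ∈ P c := by
  induction U using Polynomial.induction_on with
  | C u =>
    obtain ⟨c, hc⟩ := ev_bounded (E := E) (fun _ : X => (0 : ℤ)) u
    exact ⟨c, fun a ha => by rw [theta_C]; exact hc a ha⟩
  | add p q hp hq =>
    obtain ⟨c, hc⟩ := hp
    obtain ⟨d, hd⟩ := hq
    refine ⟨min c d, fun a ha => ?_⟩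
    rw [map_add]
    exact add_mem (P_mono (min_le_left _ _) (hc a ha)) (P_mono (min_le_right _ _) (hd a ha))
  | monomial n u h =>
    obtain ⟨c, hc⟩ := h
    refine ⟨c + 1, fun a ha => ?_⟩
    have := P_mul (hc a ha) (T_mem (E := E) 1)
    rw [← theta_X (k := k) a, ← map_mul] at this
    rwa [pow_succ, ← mul_assoc]

lemma J_order (α : X → E) (g : FreeAlgebra k X) (U : Polynomial (FreeAlgebra k X))
    (hU : U ∈ TwoSidedIdeal.span {Polynomial.C g - Polynomial.X}) :
    ∃ c : ℤ, ∀ M : ℕ, ∀ a : X → LaurentPolynomial E, (∀ j, a j - C (α j) ∈ P 1) →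
      ev k (fun _ : X => (0 : ℤ)) a g - T 1 ∈ P (M : ℤ) → theta k a U ∈ P ((M : ℤ) + c) := by
  let J : TwoSidedIdeal (Polynomial (FreeAlgebra k X)) := TwoSidedIdeal.mk'
    {u | ∃ c : ℤ, ∀ M : ℕ, ∀ a : X → LaurentPolynomial E, (∀ j, a j - C (α j) ∈ P 1) →
      ev k (fun _ : X => (0 : ℤ)) a g - T 1 ∈ P (M : ℤ) → theta k a u ∈ P ((M : ℤ) + c)}
    ⟨0, fun M a _ _ => by rw [map_zero]; exact zero_mem _⟩
    (by
      rintro u v ⟨c, hc⟩ ⟨c', hc'⟩
      refine ⟨min c c', fun M a ha hM => ?_⟩
      rw [map_add]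
      exact add_mem (P_mono (by omega) (hc M a ha hM)) (P_mono (by omega) (hc' M a ha hM)))
    (by
      rintro u ⟨c, hc⟩
      refine ⟨c, fun M a ha hM => ?_⟩
      rw [map_neg]
      exact neg_mem (hc M a ha hM))
    (by
      rintro v u ⟨c, hc⟩
      obtain ⟨b, hb⟩ := theta_bounded (E := E) v
      refine ⟨b + c, fun M a ha hM => ?_⟩
      rw [map_mul]
      have := P_mul (hb a (ev_zero_mem α a ha)) (hc M a ha hM)
      convert this using 1
      ring_nf)
    (by
      rintro u v ⟨c, hc⟩
      obtain ⟨b, hb⟩ := theta_bounded (E := E) v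
      refine ⟨c + b, fun M a ha hM => ?_⟩
      rw [map_mul]
      have := P_mul (hc M a ha hM) (hb a (ev_zero_mem α a ha))
      convert this using 1
      ring_nf)
  have hJ : ∀ u, u ∈ J ↔ ∃ c : ℤ, ∀ M : ℕ, ∀ a : X → LaurentPolynomial E,
      (∀ j, a j - C (α j) ∈ P 1) → ev k (fun _ : X => (0 : ℤ)) a g - T 1 ∈ P (M : ℤ) →
      theta k a u ∈ P ((M : ℤ) + c) := by
    intro u
    exact TwoSidedIdeal.mem_mk' _ _ _ _ _ _ _
  have hle : TwoSidedIdeal.span ({Polynomial.C g - Polynomial.X} :
      Set (Polynomial (FreeAlgebra k X))) ≤ J := by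
    rw [TwoSidedIdeal.span_le]
    intro x hx
    rw [Set.mem_singleton_iff] at hx
    subst hx
    show _ ∈ J
    rw [hJ]
    refine ⟨0, fun M a ha hM => ?_⟩
    rw [map_sub, theta_C, theta_X, add_zero]
    exact hM
  exact (hJ U).1 (hle hU)

/-- a scalar polynomial in the ideal generated by `g - t` is zero -/
lemma scalar_zero [Nontrivial E] [DecidableEq X] (α : X → E) (i : X) (g : FreeAlgebra k X)
    (h0 : FreeAlgebra.lift k α g = 0)
    (hs : ∀ e : E, ∃ u : E, jet k α i u g 0 1 = e) (p : Polynomial k)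
    (hp : p.map (algebraMap k (FreeAlgebra k X)) ∈
      TwoSidedIdeal.span {Polynomial.C g - Polynomial.X}) : p = 0 := by
  obtain ⟨c, hc⟩ := J_order α g _ hp
  let q : Polynomial E := p.map (algebraMap k E)
  have hq : ∀ a : X → LaurentPolynomial E,
      theta k a (p.map (algebraMap k (FreeAlgebra k X))) = Polynomial.toLaurent q := by
    intro a
    have h : (theta k a).comp (Polynomial.mapRingHom (algebraMap k (FreeAlgebra k X))) =
        (Polynomial.toLaurent : Polynomial E →+* LaurentPolynomial E).comp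
          (Polynomial.mapRingHom (algebraMap k E)) := by
      apply Polynomial.ringHom_ext
      · intro r
        simp only [RingHom.comp_apply, Polynomial.coe_mapRingHom, Polynomial.map_C, theta_C,
          AlgHom.commutes, Polynomial.toLaurent_C]
        rfl
      · simp only [RingHom.comp_apply, Polynomial.coe_mapRingHom, Polynomial.map_X, theta_X,
          Polynomial.toLaurent_X]
    exact RingHom.congr_fun h p
  obtain ⟨a, ha, haM⟩ := approx2 α i g h0 hs ((q.natDegree : ℤ) + 1 - c).toNat
  have h1 := hc ((q.natDegree : ℤ) + 1 - c).toNat a ha (P_mono (by omega) haM)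
  rw [hq] at h1
  have h2 : (Polynomial.toLaurent q : LaurentPolynomial E) ∈ P ((q.natDegree : ℤ) + 1) :=
    P_mono (by omega) h1
  obtain ⟨q', hq'⟩ := mem_P.1 h2
  have h3 : (T ((q.natDegree : ℤ) + 1) : LaurentPolynomial E) =
      Polynomial.toLaurent (Polynomial.X ^ (q.natDegree + 1)) := by
    rw [Polynomial.toLaurent_X_pow]
    push_cast
    rfl
  rw [h3, ← map_mul] at hq'
  have h4 := Polynomial.toLaurent_injective hq'
  have h5 : q = 0 := by
    by_contra hne
    have h6 : q.coeff q.natDegree = 0 := by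
      have h7 : q.coeff q.natDegree =
          (Polynomial.X ^ (q.natDegree + 1) * q').coeff q.natDegree :=
        congrArg (fun r => Polynomial.coeff r q.natDegree) h4
      rw [h7, Polynomial.coeff_X_pow_mul']
      simp
    exact hne (Polynomial.leadingCoeff_eq_zero.1 h6)
  exact (Polynomial.map_eq_zero_iff (algebraMap k E).injective).1 h5

end approx2

section generic

variable (k : Type) [Field k] (X : Type)

/-- extension of scalars from `k` to the field of rational functions `k(t)` -/
noncomputable def ext : FreeAlgebra k X →ₐ[k] FreeAlgebra (RatFunc k) X :=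
  FreeAlgebra.lift k (FreeAlgebra.ι (RatFunc k))

/-- the map `k⟨X⟩[t] → k(t)⟨X⟩` -/
noncomputable def Phi : Polynomial (FreeAlgebra k X) →+* FreeAlgebra (RatFunc k) X :=
  Polynomial.eval₂RingHom' (ext k X : FreeAlgebra k X →+* _)
    (algebraMap (RatFunc k) _ RatFunc.X) (fun u => (Algebra.commutes _ _).symm)

lemma Phi_C (u : FreeAlgebra k X) : Phi k X (Polynomial.C u) = ext k X u := by
  simp [Phi, Polynomial.eval₂RingHom']

lemma Phi_X : Phi k X Polynomial.X = algebraMap (RatFunc k) _ RatFunc.X := by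
  simp [Phi, Polynomial.eval₂RingHom']

lemma Phi_scalar (p : Polynomial k) :
    Phi k X (p.map (algebraMap k (FreeAlgebra k X))) =
      algebraMap (RatFunc k) _ (algebraMap (Polynomial k) (RatFunc k) p) := by
  have h : (Phi k X).comp (Polynomial.mapRingHom (algebraMap k (FreeAlgebra k X))) =
      (algebraMap (RatFunc k) (FreeAlgebra (RatFunc k) X)).comp
        (algebraMap (Polynomial k) (RatFunc k)) := by
    apply Polynomial.ringHom_ext
    · intro r
      simp only [RingHom.comp_apply, Polynomial.coe_mapRingHom, Polynomial.map_C, Phi_C,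
        AlgHom.commutes]
      rw [← Polynomial.algebraMap_eq, ← IsScalarTower.algebraMap_apply k (Polynomial k) (RatFunc k),
        ← IsScalarTower.algebraMap_apply]
    · simp only [RingHom.comp_apply, Polynomial.coe_mapRingHom, Polynomial.map_X, Phi_X,
        RatFunc.algebraMap_X]
  exact RingHom.congr_fun h p

lemma basis_word (k : Type) [Field k] (X : Type) (l : List X) :
    FreeAlgebra.basisFreeMonoid k X (FreeMonoid.ofList l) = word k l := by
  rw [FreeAlgebra.basisFreeMonoid, Module.Basis.map_apply, Finsupp.coe_basisSingleOne]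
  have h : (FreeAlgebra.equivMonoidAlgebraFreeMonoid (R := k) (X := X)).toLinearEquiv (word k l) =
      MonoidAlgebra.single (FreeMonoid.ofList l) 1 := by
    induction l with
    | nil => simp [word, MonoidAlgebra.one_def]
    | cons x l ih =>
      have h1 : word k (x :: l) = FreeAlgebra.ι k x * word k l := by simp [word]
      simp only [AlgEquiv.toLinearEquiv_apply] at ih ⊢
      rw [h1, map_mul, ih]
      simp [FreeAlgebra.equivMonoidAlgebraFreeMonoid, MonoidAlgebra.single_mul_single]
  rw [LinearEquiv.symm_apply_eq, LinearEquiv.trans_apply, h]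
  simp

lemma ext_word (l : List X) : ext k X (word k l) = word (RatFunc k) l := by
  induction l with
  | nil => simp [word]
  | cons x l ih =>
    have h1 : word k (x :: l) = FreeAlgebra.ι k x * word k l := by simp [word]
    have h2 : word (RatFunc k) (x :: l) = FreeAlgebra.ι (RatFunc k) x * word (RatFunc k) l := by
      simp [word]
    rw [h1, h2, map_mul, ih]
    simp [ext]

/-- coordinates are compatible with the extension of scalars -/
lemma coord_ext (m : FreeMonoid X) (u : FreeAlgebra k X) :
    (FreeAlgebra.basisFreeMonoid (RatFunc k) X).coord m (ext k X u) =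
      algebraMap k (RatFunc k) ((FreeAlgebra.basisFreeMonoid k X).coord m u) := by
  have hu : u ∈ Submodule.span k (Set.range (word k (X := X))) := by
    rw [span_words]; trivial
  refine Submodule.span_induction (p := fun u _ =>
    (FreeAlgebra.basisFreeMonoid (RatFunc k) X).coord m (ext k X u) =
      algebraMap k (RatFunc k) ((FreeAlgebra.basisFreeMonoid k X).coord m u)) ?_ ?_ ?_ ?_ hu
  · rintro _ ⟨l, rfl⟩
    rw [ext_word, ← basis_word, ← basis_word, Module.Basis.coord_apply, Module.Basis.coord_apply,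
      Module.Basis.repr_self, Module.Basis.repr_self]
    classical
    rw [Finsupp.single_apply, Finsupp.single_apply]
    split_ifs <;> simp
  · simp
  · intro x y _ _ hx hy
    rw [map_add, map_add, map_add, map_add, hx, hy]
  · intro r x _ hx
    have h1 : ext k X (r • x) = algebraMap k (RatFunc k) r • ext k X x := by
      rw [map_smul, algebraMap_smul]
    rw [h1, map_smul, hx, map_smul, smul_eq_mul, smul_eq_mul, map_mul]

lemma Phi_inj (V : Polynomial (FreeAlgebra k X)) (hV : Phi k X V = 0) : V = 0 := by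
  ext n
  rw [Polynomial.coeff_zero]
  apply (FreeAlgebra.basisFreeMonoid k X).ext_elem
  intro m
  let p : Polynomial k := ∑ j ∈ V.support,
    Polynomial.monomial j ((FreeAlgebra.basisFreeMonoid k X).coord m (V.coeff j))
  have h1 : (FreeAlgebra.basisFreeMonoid (RatFunc k) X).coord m (Phi k X V) =
      algebraMap (Polynomial k) (RatFunc k) p := by
    have h2 : Phi k X V = ∑ j ∈ V.support, (RatFunc.X : RatFunc k) ^ j • ext k X (V.coeff j) := by
      show Polynomial.eval₂ _ _ V = _
      rw [Polynomial.eval₂_eq_sum, Polynomial.sum_def]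
      apply Finset.sum_congr rfl
      intro j _
      rw [← map_pow, ← Algebra.commutes, Algebra.smul_def]
      rfl
    rw [h2, map_sum, map_sum]
    apply Finset.sum_congr rfl
    intro j _
    rw [map_smul, coord_ext, smul_eq_mul, ← Polynomial.C_mul_X_pow_eq_monomial, map_mul, map_pow,
      RatFunc.algebraMap_X, mul_comm, RatFunc.algebraMap_C]
    rfl
  rw [hV, map_zero] at h1
  have h3 : p = 0 := by
    have := IsFractionRing.injective (Polynomial k) (RatFunc k)
    apply this
    rw [← h1, map_zero]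
  have h4 := congrArg (fun r => Polynomial.coeff r n) h3
  simp only [p, Polynomial.finset_sum_coeff, Polynomial.coeff_monomial, Polynomial.coeff_zero] at h4
  rw [Finset.sum_ite_eq'] at h4
  rw [map_zero, Finsupp.zero_apply]
  by_cases hn : n ∈ V.support
  · rw [if_pos hn] at h4
    exact h4
  · rw [Polynomial.notMem_support_iff.1 hn, map_zero, Finsupp.zero_apply]

lemma comb (p q : Polynomial k) (U V : Polynomial (FreeAlgebra k X))
    (u v : FreeAlgebra (RatFunc k) X)
    (hU : algebraMap (Polynomial k) (RatFunc k) p • u = Phi k X U)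
    (hV : algebraMap (Polynomial k) (RatFunc k) q • v = Phi k X V) :
    algebraMap (Polynomial k) (RatFunc k) (p * q) • (u + v) =
      Phi k X (q.map (algebraMap k _) * U + p.map (algebraMap k _) * V) := by
  have h1 : Phi k X (q.map (algebraMap k _) * U) =
      algebraMap (Polynomial k) (RatFunc k) q • Phi k X U := by
    rw [map_mul, Phi_scalar, Algebra.smul_def]
  have h2 : Phi k X (p.map (algebraMap k _) * V) =
      algebraMap (Polynomial k) (RatFunc k) p • Phi k X V := by
    rw [map_mul, Phi_scalar, Algebra.smul_def]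
  rw [map_add, h1, h2, ← hU, ← hV, smul_smul, smul_smul, map_mul, smul_add,
    mul_comm (algebraMap (Polynomial k) (RatFunc k) q)]

/-- every element of `k(t)⟨X⟩` becomes an element of `k[t]⟨X⟩` after multiplication by a nonzero
polynomial -/
lemma denom (v : FreeAlgebra (RatFunc k) X) : ∃ p : Polynomial k, p ≠ 0 ∧
    ∃ V, algebraMap (Polynomial k) (RatFunc k) p • v = Phi k X V := by
  induction v using FreeAlgebra.induction with
  | grade0 r =>
    refine ⟨r.denom, RatFunc.denom_ne_zero r, r.num.map (algebraMap k _), ?_⟩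
    have hd : algebraMap (Polynomial k) (RatFunc k) r.denom ≠ 0 := by
      simpa using RatFunc.denom_ne_zero r
    have h := RatFunc.num_div_denom r
    rw [div_eq_iff hd] at h
    rw [Phi_scalar, Algebra.smul_def, ← map_mul, h, mul_comm]
  | grade1 x =>
    refine ⟨1, one_ne_zero, Polynomial.C (FreeAlgebra.ι k x), ?_⟩
    rw [Phi_C, map_one, one_smul]
    simp [ext]
  | mul u v hu hv =>
    obtain ⟨p, hp, U, hU⟩ := hu
    obtain ⟨q, hq, V, hV⟩ := hv
    refine ⟨p * q, mul_ne_zero hp hq, U * V, ?_⟩
    rw [map_mul, map_mul, ← hU, ← hV, smul_mul_smul_comm]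
  | add u v hu hv =>
    obtain ⟨p, hp, U, hU⟩ := hu
    obtain ⟨q, hq, V, hV⟩ := hv
    refine ⟨p * q, mul_ne_zero hp hq, q.map (algebraMap k _) * U + p.map (algebraMap k _) * V, ?_⟩
    exact comb k X p q U V u v hU hV

/-- **Generic constant term.** -/
theorem generic (g : FreeAlgebra k X) (hg0 : ab k X g = 0) (hg2 : g ∉ I2 k X) :
    TwoSidedIdeal.span ({ext k X g - algebraMap (RatFunc k) _ RatFunc.X} :
      Set (FreeAlgebra (RatFunc k) X)) ≠ ⊤ := by
  classical
  intro htop
  let S : TwoSidedIdeal (Polynomial (FreeAlgebra k X)) :=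
    TwoSidedIdeal.span {Polynomial.C g - Polynomial.X}
  let J : TwoSidedIdeal (FreeAlgebra (RatFunc k) X) := TwoSidedIdeal.mk'
    {u | ∃ p : Polynomial k, p ≠ 0 ∧ ∃ U ∈ S,
      algebraMap (Polynomial k) (RatFunc k) p • u = Phi k X U}
    ⟨1, one_ne_zero, 0, S.zero_mem, by simp⟩
    (by
      rintro u v ⟨p, hp, U, hUS, hU⟩ ⟨q, hq, V, hVS, hV⟩
      refine ⟨p * q, mul_ne_zero hp hq, q.map (algebraMap k _) * U + p.map (algebraMap k _) * V,
        S.add_mem (S.mul_mem_left _ _ hUS) (S.mul_mem_left _ _ hVS), ?_⟩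
      exact comb k X p q U V u v hU hV)
    (by
      rintro u ⟨p, hp, U, hUS, hU⟩
      exact ⟨p, hp, -U, S.neg_mem hUS, by rw [smul_neg, hU, map_neg]⟩)
    (by
      rintro v u ⟨p, hp, U, hUS, hU⟩
      obtain ⟨q, hq, V, hV⟩ := denom k X v
      refine ⟨q * p, mul_ne_zero hq hp, V * U, S.mul_mem_left _ _ hUS, ?_⟩
      rw [map_mul, map_mul, ← hU, ← hV, smul_mul_smul_comm])
    (by
      rintro u v ⟨p, hp, U, hUS, hU⟩
      obtain ⟨q, hq, V, hV⟩ := denom k X v
      refine ⟨p * q, mul_ne_zero hp hq, U * V, S.mul_mem_right _ _ hUS, ?_⟩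
      rw [map_mul, map_mul, ← hU, ← hV, smul_mul_smul_comm])
  have hJ : ∀ u, u ∈ J ↔ ∃ p : Polynomial k, p ≠ 0 ∧ ∃ U ∈ S,
      algebraMap (Polynomial k) (RatFunc k) p • u = Phi k X U := by
    intro u
    exact TwoSidedIdeal.mem_mk' _ _ _ _ _ _ _
  have hle : TwoSidedIdeal.span ({ext k X g - algebraMap (RatFunc k) _ RatFunc.X} :
      Set (FreeAlgebra (RatFunc k) X)) ≤ J := by
    rw [TwoSidedIdeal.span_le]
    intro x hx
    rw [Set.mem_singleton_iff] at hx
    subst hx
    show _ ∈ J
    rw [hJ]
    refine ⟨1, one_ne_zero, Polynomial.C g - Polynomial.X, TwoSidedIdeal.subset_span rfl, ?_⟩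
    rw [map_one, one_smul, map_sub, Phi_C, Phi_X]
  have h1 : (1 : FreeAlgebra (RatFunc k) X) ∈ J := by
    apply hle
    rw [htop]
    trivial
  rw [hJ] at h1
  obtain ⟨p, hp, U, hUS, hU⟩ := h1
  have h2 : p.map (algebraMap k (FreeAlgebra k X)) = U := by
    have h3 : Phi k X (p.map (algebraMap k (FreeAlgebra k X)) - U) = 0 := by
      rw [map_sub, Phi_scalar, ← hU, Algebra.smul_def, mul_one, sub_self]
    exact sub_eq_zero.1 (Phi_inj k X _ h3)
  have h4 : ∃ i, fox k i g 0 1 ≠ 0 := by
    by_contra hcon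
    push Not at hcon
    exact hg2 (mem_I2 k g hg0 hcon)
  obtain ⟨i, hi⟩ := h4
  apply hp
  refine scalar_zero (E := Module.End k (FR k X)) (pt k) i g ?_ ?_ p ?_
  · rw [lift_pt, hg0, map_zero, map_zero]
  · intro e
    obtain ⟨u, hu⟩ := act_surj k (FR k X) (inc k X (fox k i g 0 1)) (inc_nzd k X _ hi) e
    exact ⟨u, by rw [(jet_fox k i u g).2.2.2, hu]⟩
  · rw [h2]
    exact hUS

end generic

end Pool.Agent.Helper591.Cohn
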